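import Pool.Agent.H27.Rog.Defs

set_option autoImplicit false

namespace Pool.Agent.H27.Rog

namespace Shape

variable (S : Shape)

theorem r3 {u v w : ℝ} (hu : -1 ≤ u) (huv : u ≤ v) (hvw : v ≤ w) (hw : w ≤ 1) :
    (w - v) * S.r u + (v - u) * S.r w ≤ (w - u) * S.r v := by
  rcases eq_or_lt_of_le (huv.trans hvw) with h | h
  · have h1 : u = v := le_antisymm huv (by linarith)
    have h2 : v = w := le_antisymm hvw (by linarith)
    subst h1; subst h2; simp
  · have hpos : 0 < w - u := by linarith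
    have hu' : u ∈ Set.Icc (-1 : ℝ) 1 := ⟨hu, by linarith⟩
    have hw' : w ∈ Set.Icc (-1 : ℝ) 1 := ⟨by linarith, hw⟩
    have ha : 0 ≤ (w - v) / (w - u) := div_nonneg (by linarith) hpos.le
    have hb : 0 ≤ (v - u) / (w - u) := div_nonneg (by linarith) hpos.le
    have key := S.conc.2 hu' hw' ha hb (by field_simp; ring)
    have e : ((w - v) / (w - u)) • u + ((v - u) / (w - u)) • w = v := by
      simp only [smul_eq_mul]; field_simp; ring
    rw [e] at key
    simp only [smul_eq_mul] at key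
    have := mul_le_mul_of_nonneg_left key hpos.le
    calc (w - v) * S.r u + (v - u) * S.r w
        = (w - u) * ((w - v) / (w - u) * S.r u + (v - u) / (w - u) * S.r w) := by
          field_simp
      _ ≤ _ := this

theorem F3 {u v w : ℝ} (hu : -1 ≤ u) (huv : u ≤ v) (hvw : v ≤ w) (hw : w ≤ 1) :
    (w - v) * S.F u + (v - u) * S.F w ≤ (w - u) * S.F v := by
  have := S.r3 hu huv hvw hw
  unfold F
  nlinarith [this]

/-- convexity combination form -/
theorem Fc {u w t : ℝ} (hu : -1 ≤ u) (hu1 : u ≤ 1) (hw : w ≤ 1) (hw1 : -1 ≤ w) (ht0 : 0 ≤ t) (ht1 : t ≤ 1) :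
    (1 - t) * S.F u + t * S.F w ≤ S.F ((1 - t) * u + t * w) := by
  have hu' : u ∈ Set.Icc (-1 : ℝ) 1 := ⟨hu, hu1⟩
  have hw' : w ∈ Set.Icc (-1 : ℝ) 1 := ⟨hw1, hw⟩
  have ha : 0 ≤ 1 - t := by linarith
  have key := S.conc.2 hu' hw' ha ht0 (by ring)
  simp only [smul_eq_mul] at key
  unfold F
  linarith [key]

theorem r_ge {y : ℝ} (h0 : -1 ≤ y) (h1 : y ≤ 1) : (1 - |y|) * S.r 0 ≤ S.r y := by
  rcases le_total 0 y with h | h
  · have := S.r3 (u := 0) (v := y) (w := 1) (by norm_num) h h1 le_rfl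
    have h2 := S.nonneg 1 ⟨by norm_num, le_rfl⟩
    rw [abs_of_nonneg h]
    nlinarith [mul_nonneg h h2]
  · have := S.r3 (u := -1) (v := y) (w := 0) le_rfl h0 h (by norm_num)
    have h2 := S.nonneg (-1) ⟨le_rfl, by norm_num⟩
    rw [abs_of_nonpos h]
    nlinarith [mul_nonneg (neg_nonneg.2 h) h2]

theorem rpos {y : ℝ} (h0 : -1 < y) (h1 : y < 1) : 0 < S.r y := by
  have h := S.r_ge h0.le h1.le
  have h2 : |y| < 1 := abs_lt.2 ⟨h0, h1⟩
  have := mul_pos (sub_pos.2 h2) S.pos
  linarith

theorem Fnn {y : ℝ} (h0 : -1 ≤ y) (h1 : y ≤ 1) : 0 ≤ S.F y :=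
  add_nonneg (S.nonneg y ⟨h0, h1⟩) S.a_nonneg

/-- four point inequality -/
theorem r4 {u v w z : ℝ} (hu : -1 ≤ u) (huv : u ≤ v) (huw : u ≤ w) (hz : z ≤ 1) (h : u + z = v + w) :
    S.r u + S.r z ≤ S.r v + S.r w := by
  have hvz : v ≤ z := by linarith
  have hwz : w ≤ z := by linarith
  have h1 := S.r3 hu huv hvz hz
  have h2 := S.r3 hu huw hwz hz
  rcases eq_or_lt_of_le (huv.trans hvz) with h0 | h0
  · have e1 : v = u := by linarith
    have e2 : w = z := by linarith
    rw [e1, e2]
  · have hpos : 0 < z - u := by linarith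
    have hs : (z - u) * (S.r u + S.r z) ≤ (z - u) * (S.r v + S.r w) := by
      have e : w = u + z - v := by linarith
      have e1 : (z - v) * S.r u + (v - u) * S.r z + ((z - w) * S.r u + (w - u) * S.r z)
          = (z - u) * (S.r u + S.r z) := by rw [e]; ring
      nlinarith [h1, h2, e1]
    exact le_of_mul_le_mul_left hs hpos

theorem F4 {u v w z : ℝ} (hu : -1 ≤ u) (huv : u ≤ v) (huw : u ≤ w) (hz : z ≤ 1) (h : u + z = v + w) :
    S.F u + S.F z ≤ S.F v + S.F w := by
  have := S.r4 hu huv huw hz h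
  unfold F; linarith

/-- key additivity lemma -/
theorem add_r {x y : ℝ} (h1 : |x - y| ≤ 1) (h2 : |x + y| ≤ 1) : S.r (x + y) ≤ S.r x + S.r y := by
  wlog hxy : x ≤ y generalizing x y with H
  · have := H (x := y) (y := x) (by rw [abs_sub_comm]; exact h1) (by rw [add_comm]; exact h2)
      (le_of_not_ge hxy)
    rw [add_comm x y, add_comm (S.r x)]; exact this
  have h1' := abs_le.1 h1
  have h2' := abs_le.1 h2
  rcases le_total 0 x with hx | hx
  · -- both nonnegative
    have hr0 := S.pos.le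
    have := S.r4 (u := 0) (v := x) (w := y) (z := x + y) (by norm_num) hx (hx.trans hxy) h2'.2
      (by ring)
    linarith
  · rcases le_total y 0 with hy | hy
    · have hr0 := S.pos.le
      have := S.r4 (u := x + y) (v := x) (w := y) (z := 0) h2'.1 (by linarith) (by linarith)
        (by norm_num) (by ring)
      linarith
    · -- x ≤ 0 ≤ y
      have hx1 : -1 ≤ x := by linarith [h1'.1]
      have hy1 : y ≤ 1 := by linarith [h1'.1]
      have hs := S.nonneg (x + y) ⟨h2'.1, h2'.2⟩
      have a1 := S.r3 (u := -1) (v := x) (w := x + y) le_rfl hx1 (by linarith) h2'.2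
      have a2 := S.r3 (u := x + y) (v := y) (w := 1) h2'.1 (by linarith) hy1 le_rfl
      have n1 := S.nonneg (-1) ⟨le_rfl, by norm_num⟩
      have n2 := S.nonneg 1 ⟨by norm_num, le_rfl⟩
      have b1 : (x + 1) * S.r (x + y) ≤ (x + y + 1) * S.r x := by
        nlinarith [mul_nonneg hy n1]
      have b2 : (1 - y) * S.r (x + y) ≤ (1 - (x + y)) * S.r y := by
        nlinarith [mul_nonneg (neg_nonneg.2 hx) n2]
      rcases eq_or_lt_of_le h2'.1 with e | e
      · -- x + y = -1
        have : y = 0 := by linarith [h1'.1]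
        subst this
        have := S.pos
        rw [add_zero]; linarith
      rcases eq_or_lt_of_le h2'.2 with e' | e'
      · have : x = 0 := by linarith [h1'.1]
        subst this
        have := S.pos
        rw [zero_add]; linarith
      have p1 : 0 < x + y + 1 := by linarith
      have p2 : 0 < 1 - (x + y) := by linarith
      have c1 := mul_le_mul_of_nonneg_left b1 p2.le
      have c2 := mul_le_mul_of_nonneg_left b2 p1.le
      have c3 : 0 ≤ (1 + x - y) * S.r (x + y) := mul_nonneg (by linarith [h1'.1]) hs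
      have : ((x + y + 1) * (1 - (x + y))) * S.r (x + y)
          ≤ ((x + y + 1) * (1 - (x + y))) * (S.r x + S.r y) := by
        nlinarith [c1, c2, c3]
      exact le_of_mul_le_mul_left this (mul_pos p1 p2)

theorem add_F {x y : ℝ} (h1 : |x - y| ≤ 1) (h2 : |x + y| ≤ 1) :
    S.F (x + y) + S.a ≤ S.F x + S.F y := by
  have := S.add_r h1 h2
  unfold F; linarith

theorem add_F' {x y : ℝ} (h1 : |x - y| ≤ 1) (h2 : |x + y| ≤ 1) :
    S.F (x + y) ≤ S.F x + S.F y := by
  have := S.add_F h1 h2
  have := S.a_nonneg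
  linarith

/-- three term lemma -/
theorem three_r {q q' : ℝ} (hq0 : 0 ≤ q) (hq1 : q ≤ 1) (hq'0 : 0 ≤ q') (hq'1 : q' ≤ 1) :
    S.r (q - q') ≤ S.r ((1 - q') / 2 - 1) + S.r ((1 - q') / 2) + S.r q := by
  set θ := (1 - q') / 2 with hθ
  have hq' : q' = 1 - 2 * θ := by rw [hθ]; ring
  have hθ0 : 0 ≤ θ := by rw [hθ]; linarith
  have hθ1 : θ ≤ 1 / 2 := by rw [hθ]; linarith
  have n1 := S.nonneg (-1) ⟨le_rfl, by norm_num⟩
  have n2 := S.nonneg 1 ⟨by norm_num, le_rfl⟩
  have nθ1 := S.nonneg (θ - 1) ⟨by linarith, by linarith⟩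
  have nθ := S.nonneg θ ⟨by linarith, by linarith⟩
  have nq := S.nonneg q ⟨by linarith, by linarith⟩
  set u := q - q' with hu
  have hu1 : u = q - 1 + 2 * θ := by rw [hu, hq']; ring
  have nu := S.nonneg u ⟨by linarith, by linarith⟩
  rcases le_total u θ with h | h
  · -- use θ and q
    have a1 := S.r3 (u := u) (v := θ) (w := 1) (by linarith) h (by linarith) le_rfl
    have a2 := S.r3 (u := u) (v := q) (w := 1) (by linarith) (by linarith) hq1 le_rfl
    have b1 : (1 - θ) * S.r u ≤ (1 - u) * S.r θ := by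
      nlinarith [mul_nonneg (sub_nonneg.2 h) n2]
    have b2 : (1 - q) * S.r u ≤ (1 - u) * S.r q := by
      nlinarith [mul_nonneg (show 0 ≤ q - u by linarith) n2]
    have hp : 0 < 1 - u := by linarith
    have : (1 - u) * S.r u ≤ (1 - u) * (S.r θ + S.r q) := by
      have : 0 ≤ θ * S.r u := mul_nonneg hθ0 nu
      nlinarith [b1, b2]
    have := le_of_mul_le_mul_left this hp
    linarith
  · have a1 := S.r3 (u := -1) (v := θ) (w := u) le_rfl (by linarith) h (by linarith)
    have a2 := S.r3 (u := -1) (v := θ - 1) (w := u) le_rfl (by linarith) (by linarith) (by linarith)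
    have b1 : (θ + 1) * S.r u ≤ (u + 1) * S.r θ := by
      nlinarith [mul_nonneg (sub_nonneg.2 h) n1]
    have b2 : θ * S.r u ≤ (u + 1) * S.r (θ - 1) := by
      nlinarith [mul_nonneg (show 0 ≤ u - (θ - 1) by linarith) n1]
    have hp : 0 < u + 1 := by linarith
    have : (u + 1) * S.r u ≤ (u + 1) * (S.r (θ - 1) + S.r θ) := by
      have : 0 ≤ (1 - q) * S.r u := mul_nonneg (by linarith) nu
      nlinarith [b1, b2]
    have := le_of_mul_le_mul_left this hp
    linarith

@[simp] theorem mirror_r (y : ℝ) : S.mirror.r y = S.r (-y) := rfl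
@[simp] theorem mirror_a : S.mirror.a = S.a := rfl
@[simp] theorem mirror_F (y : ℝ) : S.mirror.F y = S.F (-y) := rfl

end Shape

theorem sep_mirror (S : Shape) (P y : ℝ) : Sep S.mirror P y ↔ Sep S P (-y) := by
  unfold Sep; simp

theorem Crit.mirror {S : Shape} {Δ : ℝ} (h : Crit S Δ) : Crit S.mirror Δ where
  pos := h.pos
  C := by
    intro q q' P₁ P₂ a b c d e f g i
    simp only [Shape.mirror_F, neg_neg] at f g i
    have := h.C q' q P₂ P₁ c d a b (by linarith) g f (by
      rw [show q' - q = -(q - q') by ring, add_comm]; exact i)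
    linarith
  N := by
    intro q q' p P₂ a b c d e f g i
    simp only [Shape.mirror_F, Shape.mirror_r, Shape.mirror_a, neg_neg] at e f g i
    have := h.N' q' q P₂ p c d a b e f g (by
      rw [show q' - q = -(q - q') by ring, add_comm]; exact i)
    linarith
  N' := by
    intro q q' P₁ p a b c d e f g i
    simp only [Shape.mirror_F, Shape.mirror_r, Shape.mirror_a, neg_neg] at e f g i
    have := h.N q' q p P₁ c d a b e f g (by
      rw [show q' - q = -(q - q') by ring, add_comm]; exact i)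
    linarith

theorem psi_mirror (S : Shape) (Δ P s t : ℝ) : psi S.mirror Δ P s t = psi S Δ P t s := by
  unfold psi psiSet
  congr 2
  ext v
  constructor
  · rintro ⟨y, h1, h2, h3, h4⟩
    simp only [Shape.mirror_F] at h3 h4
    refine ⟨y, by linarith, h2, ?_, ?_⟩
    · rw [show y - t = -(t - y) by ring, show s - y = -(y - s) by ring]; linarith
    · rw [h4, show y - t = -(t - y) by ring, show s - y = -(y - s) by ring]; ring
  · rintro ⟨y, h1, h2, h3, h4⟩
    refine ⟨y, by linarith, h2, ?_, ?_⟩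
    · simp only [Shape.mirror_F]
      rw [show -(y - s) = s - y by ring, show -(t - y) = y - t by ring]; linarith
    · simp only [Shape.mirror_F]
      rw [h4, show -(y - s) = s - y by ring, show -(t - y) = y - t by ring]; ring

theorem Dp_mirror (S : Shape) (Δ P s t : ℝ) : Dp S.mirror Δ P s t = Dp S Δ P t s := by
  unfold Dp; rw [psi_mirror, psi_mirror]

end Pool.Agent.H27.Rog
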