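import Pool.Agent.H27.Rog.Defs

/-!
# The counting theorem (discrete induction)

A horizontal dead line moves up; the alive points are the points of the packing at most `1` above it.
The potential of the list of alive points grows by at least `Δ` at every birth and at every death.
(Proof plan: helper27; formalisation: helper99.)
-/

set_option autoImplicit false

namespace Pool.Agent.H27.Rog

section Chain

variable {P : Type*} (link : Option P → Option P → ℝ)

/-- sum of the links of a list of points with left context `a` and the right wall at the end. -/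
def chainSum : Option P → List P → ℝ
  | a, [] => link a none
  | a, p :: ps => link a (some p) + chainSum (some p) ps

/-- sum of the links up to the last point. -/
def preSum : Option P → List P → ℝ
  | _, [] => 0
  | a, p :: ps => link a (some p) + preSum (some p) ps

/-- last point of the list (or the context) -/
def lastOr : Option P → List P → Option P
  | a, [] => a
  | _, p :: ps => lastOr (some p) ps

/-- the remaining sum -/
def restSum : List P → ℝ
  | [] => 0
  | p :: ps => chainSum link (some p) ps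

theorem chainSum_append (a : Option P) (l₁ l₂ : List P) :
    chainSum link a (l₁ ++ l₂) = preSum link a l₁ + chainSum link (lastOr a l₁) l₂ := by
  induction l₁ generalizing a with
  | nil => simp [preSum, lastOr]
  | cons p ps ih => simp only [List.cons_append, chainSum, preSum, lastOr, ih]; ring

theorem chainSum_eq (a : Option P) (l : List P) :
    chainSum link a l = link a l.head? + restSum link l := by
  cases l with
  | nil => simp [chainSum, restSum]
  | cons p ps => simp [chainSum, restSum]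

theorem lastOr_cases (l : List P) (a : Option P) :
    (l = [] ∧ lastOr a l = a) ∨ ∃ p ∈ l, lastOr a l = some p := by
  induction l generalizing a with
  | nil => exact Or.inl ⟨rfl, rfl⟩
  | cons p ps ih =>
    refine Or.inr ?_
    rcases ih (some p) with ⟨h1, h2⟩ | ⟨q, hq, h2⟩
    · exact ⟨p, by simp, by rw [lastOr, h2]⟩
    · exact ⟨q, by simp [hq], by rw [lastOr, h2]⟩

theorem head_cases (l : List P) : l.head? = none ∨ ∃ p ∈ l, l.head? = some p := by
  cases l with
  | nil => exact Or.inl rfl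
  | cons p ps => exact Or.inr ⟨p, by simp, rfl⟩

theorem chainSum_diff (l₁ l₂ : List P) (x : P) :
    chainSum link none (l₁ ++ l₂) - chainSum link none (l₁ ++ x :: l₂)
      = link (lastOr none l₁) l₂.head? - link (lastOr none l₁) (some x)
        - link (some x) l₂.head? := by
  rw [chainSum_append, chainSum_append, chainSum_eq link _ l₂, chainSum, chainSum_eq link _ l₂]
  ring

end Chain

theorem split_sorted (y : ℝ) (A : List (ℝ × ℝ)) (hA : A.Pairwise (fun p r => p.1 < r.1)) :
    ∃ l₁ l₂, A = l₁ ++ l₂ ∧ (∀ p ∈ l₁, p.1 ≤ y) ∧ (∀ p ∈ l₂, y < p.1) := by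
  induction A with
  | nil => exact ⟨[], [], rfl, by simp, by simp⟩
  | cons a as ih =>
    rw [List.pairwise_cons] at hA
    by_cases h : a.1 ≤ y
    · obtain ⟨l₁, l₂, h1, h2, h3⟩ := ih hA.2
      refine ⟨a :: l₁, l₂, by rw [h1]; rfl, ?_, h3⟩
      intro p hp
      rcases List.mem_cons.1 hp with rfl | hp
      · exact h
      · exact h2 p hp
    · refine ⟨[], a :: as, rfl, by simp, ?_⟩
      intro p hp
      rcases List.mem_cons.1 hp with rfl | hp
      · exact not_le.1 h
      · exact (not_le.1 h).trans (hA.1 p hp)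

section Pot

variable (S : Shape) (Δ X₀ X₁ Y : ℝ)

/-- the potential of a link, the dead line being at height `Y` -/
noncomputable def link : Option (ℝ × ℝ) → Option (ℝ × ℝ) → ℝ
  | none, none => (X₁ - X₀) * (2 * Y + 1)
  | none, some p => (p.1 - X₀) * (2 * Y + 1) - ((1 - (p.2 - Y)) * S.F (p.2 - Y) - Δ / 2)
  | some p, none => (X₁ - p.1) * (2 * Y + 1) - ((1 - (p.2 - Y)) * S.F (-(p.2 - Y)) - Δ / 2)
  | some p, some r => (r.1 - p.1) * (p.2 + r.2) + Dp S Δ (r.1 - p.1) (p.2 - Y) (r.2 - Y)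

variable {S Δ X₀ X₁ Y}

/-- the relation between two alive points -/
def Rel (S : Shape) (p r : ℝ × ℝ) : Prop :=
  p.1 < r.1 ∧ |r.2 - p.2| < 1 ∧ Sep S (r.1 - p.1) (r.2 - p.2)

theorem link_mono (h : EventIneq S Δ) {Fm Y' : ℝ} (hF : ∀ y ∈ Set.Icc (-1 : ℝ) 1, S.F y ≤ Fm)
    (hX : X₀ ≤ X₁) (hY : Y ≤ Y') (a b : Option (ℝ × ℝ))
    (ha : ∀ p, a = some p → p.1 + Fm ≤ X₁ ∧ Y' ≤ p.2 ∧ p.2 ≤ Y + 1)
    (hb : ∀ p, b = some p → X₀ + Fm ≤ p.1 ∧ Y' ≤ p.2 ∧ p.2 ≤ Y + 1) :
    link S Δ X₀ X₁ Y a b ≤ link S Δ X₀ X₁ Y' a b := by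
  rcases a with _ | p <;> rcases b with _ | r
  · simp only [link]
    have : 0 ≤ (X₁ - X₀) * (2 * (Y' - Y)) := mul_nonneg (by linarith) (by linarith)
    linarith
  · obtain ⟨h1, h2, h3⟩ := hb r rfl
    simp only [link]
    have h4 := h.wallL_mono (r.2 - Y) (Y' - Y) (by linarith) (by linarith) (by linarith)
    rw [show r.2 - Y - (Y' - Y) = r.2 - Y' by ring] at h4
    have h5 := hF (r.2 - Y') ⟨by linarith, by linarith⟩
    have h6 : 0 ≤ (Y' - Y) * (r.1 - X₀ - S.F (r.2 - Y')) :=
      mul_nonneg (by linarith) (by linarith)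
    nlinarith [h4, h6]
  · obtain ⟨h1, h2, h3⟩ := ha p rfl
    simp only [link]
    have h4 := h.wallR_mono (p.2 - Y) (Y' - Y) (by linarith) (by linarith) (by linarith)
    rw [show p.2 - Y - (Y' - Y) = p.2 - Y' by ring] at h4
    have h5 := hF (-(p.2 - Y')) ⟨by linarith, by linarith⟩
    have h6 : 0 ≤ (Y' - Y) * (X₁ - p.1 - S.F (-(p.2 - Y'))) :=
      mul_nonneg (by linarith) (by linarith)
    nlinarith [h4, h6]
  · obtain ⟨h1, h2, h3⟩ := ha p rfl
    obtain ⟨h1', h2', h3'⟩ := hb r rfl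
    simp only [link]
    have h4 := h.mono (r.1 - p.1) (p.2 - Y) (r.2 - Y) (Y' - Y) (by linarith) (by linarith)
      (by linarith) (by linarith) (by linarith)
    rw [show p.2 - Y - (Y' - Y) = p.2 - Y' by ring,
      show r.2 - Y - (Y' - Y) = r.2 - Y' by ring] at h4
    linarith

theorem chainSum_mono (h : EventIneq S Δ) {Fm Y' : ℝ}
    (hF : ∀ y ∈ Set.Icc (-1 : ℝ) 1, S.F y ≤ Fm)
    (hX : X₀ ≤ X₁) (hY : Y ≤ Y') (A : List (ℝ × ℝ))
    (hA : ∀ p ∈ A, X₀ + Fm ≤ p.1 ∧ p.1 + Fm ≤ X₁ ∧ Y' ≤ p.2 ∧ p.2 ≤ Y + 1)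
    (a : Option (ℝ × ℝ)) (ha : ∀ p, a = some p → p.1 + Fm ≤ X₁ ∧ Y' ≤ p.2 ∧ p.2 ≤ Y + 1) :
    chainSum (link S Δ X₀ X₁ Y) a A ≤ chainSum (link S Δ X₀ X₁ Y') a A := by
  induction A generalizing a with
  | nil =>
    exact link_mono h hF hX hY a none ha (by simp)
  | cons p ps ih =>
    simp only [chainSum]
    have hp := hA p (by simp)
    refine add_le_add (link_mono h hF hX hY a (some p) ha ?_) (ih (fun q hq => hA q (by simp [hq]))
      (some p) ?_)
    · intro q hq
      obtain rfl : p = q := by simpa using hq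
      exact ⟨hp.1, hp.2.2.1, hp.2.2.2⟩
    · intro q hq
      obtain rfl : p = q := by simpa using hq
      exact ⟨hp.2.1, hp.2.2.1, hp.2.2.2⟩

/-- deletion of a point on the dead line -/
theorem link_del (h : EventIneq S Δ) (x : ℝ × ℝ) (hx : x.2 = Y) (a b : Option (ℝ × ℝ))
    (ha : ∀ p, a = some p → Rel S p x ∧ Y ≤ p.2) (hb : ∀ p, b = some p → Rel S x p ∧ Y ≤ p.2)
    (hab : ∀ p r, a = some p → b = some r → Rel S p r) :
    Δ ≤ link S Δ X₀ X₁ Y a b - link S Δ X₀ X₁ Y a (some x) - link S Δ X₀ X₁ Y (some x) b := by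
  subst hx
  rcases a with _ | p <;> rcases b with _ | r
  · simp only [link, sub_self, neg_zero]
    have := h.F0
    linarith
  · obtain ⟨⟨h1, h2, h3⟩, h4⟩ := hb r rfl
    rw [abs_lt] at h2
    simp only [link, sub_self]
    have h5 := h.wallL_del (r.2 - x.2) (r.1 - x.1) (by linarith) (by linarith) h3
    nlinarith [h5]
  · obtain ⟨⟨h1, h2, h3⟩, h4⟩ := ha p rfl
    rw [abs_lt] at h2
    simp only [link, sub_self, neg_zero]
    have h5 := h.wallR_del (p.2 - x.2) (x.1 - p.1) (by linarith) (by linarith) (by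
      rw [neg_sub]; exact h3)
    nlinarith [h5]
  · obtain ⟨⟨h1, h2, h3⟩, h4⟩ := ha p rfl
    obtain ⟨⟨h1', h2', h3'⟩, h4'⟩ := hb r rfl
    obtain ⟨h6, h7, h8⟩ := hab p r rfl rfl
    rw [abs_lt] at h2 h2'
    simp only [link, sub_self]
    have h5 := h.mid (r.2 - x.2) (p.2 - x.2) (x.1 - p.1) (r.1 - x.1) (by linarith) (by linarith)
      (by linarith) (by linarith) (by rw [neg_sub]; exact h3) h3' (by
        rw [show x.1 - p.1 + (r.1 - x.1) = r.1 - p.1 by ring,
          show r.2 - x.2 - (p.2 - x.2) = r.2 - p.2 by ring]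
        exact h8)
    rw [show x.1 - p.1 + (r.1 - x.1) = r.1 - p.1 by ring] at h5
    nlinarith [h5]

/-- insertion of a point at height `1` above the dead line -/
theorem link_ins (h : EventIneq S Δ) (x : ℝ × ℝ) (hx : x.2 = Y + 1) (a b : Option (ℝ × ℝ))
    (ha : ∀ p, a = some p → Rel S p x ∧ Y < p.2 ∧ p.2 ≤ Y + 1)
    (hb : ∀ p, b = some p → Rel S x p ∧ Y < p.2 ∧ p.2 ≤ Y + 1)
    (hab : ∀ p r, a = some p → b = some r → Rel S p r) :
    link S Δ X₀ X₁ Y a b - link S Δ X₀ X₁ Y a (some x) - link S Δ X₀ X₁ Y (some x) b ≤ -Δ := by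
  have hx' : x.2 - Y = 1 := by linarith
  rcases a with _ | p <;> rcases b with _ | r
  · simp only [link, hx', sub_self, zero_mul]
    linarith
  · obtain ⟨⟨h1, h2, h3⟩, h4, h5⟩ := hb r rfl
    simp only [link, hx', sub_self, zero_mul]
    have h6 := h.wallL_ins (r.2 - Y) (r.1 - x.1) (by linarith) (by linarith) (by
      rw [show r.2 - Y - 1 = r.2 - x.2 by linarith]; exact h3)
    rw [hx]
    nlinarith [h6]
  · obtain ⟨⟨h1, h2, h3⟩, h4, h5⟩ := ha p rfl
    simp only [link, hx', sub_self, zero_mul]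
    have h6 := h.wallR_ins (p.2 - Y) (x.1 - p.1) (by linarith) (by linarith) (by
      rw [show 1 - (p.2 - Y) = x.2 - p.2 by linarith]; exact h3)
    rw [hx]
    nlinarith [h6]
  · obtain ⟨⟨h1, h2, h3⟩, h4, h5⟩ := ha p rfl
    obtain ⟨⟨h1', h2', h3'⟩, h4', h5'⟩ := hb r rfl
    obtain ⟨h6, h7, h8⟩ := hab p r rfl rfl
    simp only [link, hx']
    have h9 := h.mid (1 - (p.2 - Y)) (1 - (r.2 - Y)) (r.1 - x.1) (x.1 - p.1) (by linarith)
      (by linarith) (by linarith) (by linarith)
      (by rw [show -(1 - (r.2 - Y)) = r.2 - x.2 by linarith]; exact h3')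
      (by rw [show 1 - (p.2 - Y) = x.2 - p.2 by linarith]; exact h3) (by
        rw [show r.1 - x.1 + (x.1 - p.1) = r.1 - p.1 by ring,
          show 1 - (p.2 - Y) - (1 - (r.2 - Y)) = r.2 - p.2 by ring]
        exact h8)
    rw [show r.1 - x.1 + (x.1 - p.1) = r.1 - p.1 by ring] at h9
    have e1 := h.anti (r.1 - p.1) (p.2 - Y) (r.2 - Y)
    have e2 := h.anti (r.1 - x.1) 1 (r.2 - Y)
    have e3 := h.anti (x.1 - p.1) (p.2 - Y) 1
    rw [sub_self] at e2 e3
    rw [e1, e2, e3] at h9
    rw [hx]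
    nlinarith [h9]

end Pot

/-- The main induction. -/
theorem main_ind (S : Shape) (Δ Fm : ℝ) (h : EventIneq S Δ)
    (hF : ∀ y ∈ Set.Icc (-1 : ℝ) 1, S.F y ≤ Fm) (X₀ X₁ Y₁ : ℝ) (hX : X₀ ≤ X₁)
    (T : Finset (ℝ × ℝ))
    (hbox : ∀ t ∈ T, X₀ + Fm ≤ t.1 ∧ t.1 + Fm ≤ X₁ ∧ t.2 ≤ Y₁)
    (hsep : ∀ s ∈ T, ∀ t ∈ T, s ≠ t → |t.2 - s.2| < 1 →
      (s.1 < t.1 ∧ Sep S (t.1 - s.1) (t.2 - s.2)) ∨ (t.1 < s.1 ∧ Sep S (s.1 - t.1) (s.2 - t.2)))
    (n : ℕ) : ∀ (U : Finset (ℝ × ℝ)) (A : List (ℝ × ℝ)) (Y : ℝ), 2 * U.card + A.length = n →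
      Y ≤ Y₁ → (∀ t ∈ U, t ∈ T ∧ Y + 1 ≤ t.2) →
      (∀ t ∈ A, t ∈ T ∧ t ∉ U ∧ Y ≤ t.2 ∧ t.2 ≤ Y + 1) → A.Pairwise (Rel S) →
      chainSum (link S Δ X₀ X₁ Y) none A + n * Δ ≤ (X₁ - X₀) * (2 * Y₁ + 1) := by
  classical
  induction n with
  | zero =>
    intro U A Y hn hY hU hA hP
    have hA0 : A = [] := List.length_eq_zero_iff.1 (by omega)
    subst hA0
    simp only [chainSum, link, Nat.cast_zero, zero_mul, add_zero]
    have : 0 ≤ (X₁ - X₀) * (2 * (Y₁ - Y)) := mul_nonneg (by linarith) (by linarith)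
    linarith
  | succ n ih =>
    intro U A Y hn hY hU hA hP
    -- the next event
    obtain ⟨Y', hY'E, hmin⟩ : ∃ Y', ((∃ t ∈ A, t.2 = Y') ∨ (∃ t ∈ U, t.2 - 1 = Y')) ∧
        ((∀ t ∈ A, Y' ≤ t.2) ∧ (∀ t ∈ U, Y' ≤ t.2 - 1)) := by
      let E : Finset ℝ := A.toFinset.image (fun t => t.2) ∪ U.image (fun t => t.2 - 1)
      have hE : E.Nonempty := by
        by_cases hA0 : A = []
        · have : U.Nonempty := by
            rw [← Finset.card_pos]
            subst hA0
            simp at hn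
            omega
          obtain ⟨u, hu⟩ := this
          exact ⟨u.2 - 1, by simp only [E, Finset.mem_union, Finset.mem_image]; right; exact ⟨u, hu, rfl⟩⟩
        · obtain ⟨u, hu⟩ := List.exists_mem_of_ne_nil A hA0
          exact ⟨u.2, by
            simp only [E, Finset.mem_union, Finset.mem_image, List.mem_toFinset]
            left; exact ⟨u, hu, rfl⟩⟩
      refine ⟨E.min' hE, ?_, ?_, ?_⟩
      · have := E.min'_mem hE
        simp only [E, Finset.mem_union, Finset.mem_image, List.mem_toFinset] at this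
        exact this
      · intro t ht
        apply E.min'_le
        simp only [E, Finset.mem_union, Finset.mem_image, List.mem_toFinset]
        left; exact ⟨t, ht, rfl⟩
      · intro t ht
        apply E.min'_le
        simp only [E, Finset.mem_union, Finset.mem_image, List.mem_toFinset]
        right; exact ⟨t, ht, rfl⟩
    have hYY' : Y ≤ Y' := by
      rcases hY'E with ⟨t, ht, rfl⟩ | ⟨t, ht, rfl⟩
      · exact (hA t ht).2.2.1
      · linarith [(hU t ht).2]
    have hY'1 : Y' ≤ Y₁ := by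
      rcases hY'E with ⟨t, ht, rfl⟩ | ⟨t, ht, rfl⟩
      · exact (hbox t (hA t ht).1).2.2
      · linarith [(hbox t (hU t ht).1).2.2]
    have hadv : chainSum (link S Δ X₀ X₁ Y) none A ≤ chainSum (link S Δ X₀ X₁ Y') none A := by
      refine chainSum_mono h hF hX hYY' A (fun p hp => ?_) none (by simp)
      have h1 := hbox p (hA p hp).1
      exact ⟨h1.1, h1.2.1, hmin.1 p hp, (hA p hp).2.2.2⟩
    by_cases hdel : ∃ x ∈ A, x.2 = Y'
    · -- deletion
      obtain ⟨x, hxA, hx⟩ := hdel
      obtain ⟨l₁, l₂, rfl⟩ := List.append_of_mem hxA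
      have hIH := ih U (l₁ ++ l₂) Y' (by
          simp only [List.length_append, List.length_cons] at hn ⊢
          omega) hY'1 (fun t ht => ⟨(hU t ht).1, by linarith [hmin.2 t ht]⟩)
        (fun t ht => by
          have ht' : t ∈ l₁ ++ x :: l₂ := by
            rw [List.mem_append] at ht ⊢
            rcases ht with ht | ht
            · exact Or.inl ht
            · exact Or.inr (by simp [ht])
          exact ⟨(hA t ht').1, (hA t ht').2.1, hmin.1 t ht', by linarith [(hA t ht').2.2.2]⟩)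
        (hP.sublist (List.Sublist.append_left (List.sublist_cons_self x l₂) l₁))
      have hP' := hP
      rw [List.pairwise_append, List.pairwise_cons] at hP'
      obtain ⟨hp1, ⟨hp2, hp3⟩, hp4⟩ := hP'
      have hdiff := chainSum_diff (link S Δ X₀ X₁ Y') l₁ l₂ x
      have hl : ∀ p, lastOr none l₁ = some p → p ∈ l₁ := by
        intro p hp
        rcases lastOr_cases l₁ none with ⟨-, h2⟩ | ⟨q, hq, h2⟩
        · rw [h2] at hp; exact absurd hp (by simp)
        · rw [h2] at hp
          obtain rfl : q = p := by simpa using hp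
          exact hq
      have hr : ∀ p, l₂.head? = some p → p ∈ l₂ := fun p hp => List.mem_of_head? hp
      have hd := link_del (X₀ := X₀) (X₁ := X₁) h x hx (lastOr none l₁) l₂.head?
        (fun p hp => ⟨hp4 p (hl p hp) x (by simp), hmin.1 p (by simp [hl p hp])⟩)
        (fun p hp => ⟨hp2 p (hr p hp), hmin.1 p (by simp [hr p hp])⟩)
        (fun p r hp hr' => hp4 p (hl p hp) r (by simp [hr r hr']))
      push_cast
      linarith
    · -- insertion
      push Not at hdel
      obtain ⟨u, huU, hu⟩ : ∃ t ∈ U, t.2 - 1 = Y' := by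
        rcases hY'E with ⟨t, ht, h1⟩ | h1
        · exact absurd h1 (hdel t ht)
        · exact h1
      have hlt : ∀ p ∈ A, Y' < p.2 := fun p hp => lt_of_le_of_ne (hmin.1 p hp) (hdel p hp).symm
      have hu2 : u.2 = Y' + 1 := by linarith
      have hsepu : ∀ p ∈ A, (p.1 < u.1 ∧ Rel S p u) ∨ (u.1 < p.1 ∧ Rel S u p) := by
        intro p hp
        have h1 := hA p hp
        have h2 := hlt p hp
        have hne : p ≠ u := by
          rintro rfl
          exact h1.2.1 huU
        have h3 : |u.2 - p.2| < 1 := by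
          rw [abs_lt]
          constructor <;> linarith [h1.2.2.2]
        rcases hsep p h1.1 u (hU u huU).1 hne h3 with ⟨h4, h5⟩ | ⟨h4, h5⟩
        · exact Or.inl ⟨h4, h4, h3, h5⟩
        · exact Or.inr ⟨h4, h4, by rw [abs_sub_comm]; exact h3, h5⟩
      obtain ⟨l₁, l₂, rfl, hl1, hl2⟩ := split_sorted u.1 A (hP.imp (fun h => h.1))
      have hR1 : ∀ p ∈ l₁, Rel S p u := by
        intro p hp
        rcases hsepu p (by simp [hp]) with h1 | h1
        · exact h1.2
        · exact absurd h1.1 (not_lt.2 (hl1 p hp))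
      have hR2 : ∀ p ∈ l₂, Rel S u p := by
        intro p hp
        rcases hsepu p (by simp [hp]) with h1 | h1
        · exact absurd h1.1 (not_lt.2 (hl2 p hp).le)
        · exact h1.2
      have hP' := hP
      rw [List.pairwise_append] at hP'
      obtain ⟨hp1, hp2, hp3⟩ := hP'
      have hUc : (U.erase u).card = U.card - 1 := Finset.card_erase_of_mem huU
      have hUpos : 0 < U.card := Finset.card_pos.2 ⟨u, huU⟩
      have hIH := ih (U.erase u) (l₁ ++ u :: l₂) Y' (by
          simp only [List.length_append, List.length_cons] at hn ⊢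
          omega) hY'1
        (fun t ht => ⟨(hU t (Finset.mem_of_mem_erase ht)).1, by
          linarith [hmin.2 t (Finset.mem_of_mem_erase ht)]⟩)
        (fun t ht => by
          by_cases htu : t = u
          · subst htu
            exact ⟨(hU t huU).1, Finset.notMem_erase _ _, by linarith, by linarith⟩
          · have ht' : t ∈ l₁ ++ l₂ := by
              rw [List.mem_append, List.mem_cons] at ht
              rw [List.mem_append]
              tauto
            exact ⟨(hA t ht').1, fun h1 => (hA t ht').2.1 (Finset.mem_of_mem_erase h1),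
              hmin.1 t ht', by linarith [(hA t ht').2.2.2]⟩)
        (by
          rw [List.pairwise_append, List.pairwise_cons]
          refine ⟨hp1, ⟨hR2, hp2⟩, ?_⟩
          intro a ha b hb
          rcases List.mem_cons.1 hb with rfl | hb
          · exact hR1 a ha
          · exact hp3 a ha b hb)
      have hdiff := chainSum_diff (link S Δ X₀ X₁ Y') l₁ l₂ u
      have hl : ∀ p, lastOr none l₁ = some p → p ∈ l₁ := by
        intro p hp
        rcases lastOr_cases l₁ none with ⟨-, h2⟩ | ⟨q, hq, h2⟩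
        · rw [h2] at hp; exact absurd hp (by simp)
        · rw [h2] at hp
          obtain rfl : q = p := by simpa using hp
          exact hq
      have hr : ∀ p, l₂.head? = some p → p ∈ l₂ := fun p hp => List.mem_of_head? hp
      have hd := link_ins (X₀ := X₀) (X₁ := X₁) h u hu2 (lastOr none l₁) l₂.head?
        (fun p hp => ⟨hR1 p (hl p hp), hlt p (by simp [hl p hp]), by
          linarith [(hA p (by simp [hl p hp])).2.2.2]⟩)
        (fun p hp => ⟨hR2 p (hr p hp), hlt p (by simp [hr p hp]), by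
          linarith [(hA p (by simp [hr p hp])).2.2.2]⟩)
        (fun p r hp hr' => hp3 p (hl p hp) r (hr r hr'))
      push_cast
      linarith

/-- The counting theorem (job B). -/
theorem counting (S : Shape) (Δ Fm : ℝ) (h : EventIneq S Δ)
    (hF : ∀ y ∈ Set.Icc (-1 : ℝ) 1, S.F y ≤ Fm) (X₀ X₁ Y₀ Y₁ : ℝ) (hX : X₀ ≤ X₁) (hY : Y₀ ≤ Y₁)
    (T : Finset (ℝ × ℝ))
    (hbox : ∀ t ∈ T, X₀ + Fm ≤ t.1 ∧ t.1 + Fm ≤ X₁ ∧ Y₀ ≤ t.2 ∧ t.2 ≤ Y₁)
    (hsep : ∀ s ∈ T, ∀ t ∈ T, s ≠ t → |t.2 - s.2| < 1 →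
      (s.1 < t.1 ∧ Sep S (t.1 - s.1) (t.2 - s.2)) ∨ (t.1 < s.1 ∧ Sep S (s.1 - t.1) (s.2 - t.2))) :
    (T.card : ℝ) * Δ ≤ (X₁ - X₀) * (Y₁ - Y₀ + 1) := by
  have h1 := main_ind S Δ Fm h hF X₀ X₁ Y₁ hX T
    (fun t ht => ⟨(hbox t ht).1, (hbox t ht).2.1, (hbox t ht).2.2.2⟩) hsep (2 * T.card) T [] (Y₀ - 1)
    (by simp) (by linarith) (fun t ht => ⟨ht, by linarith [(hbox t ht).2.2.1]⟩) (by simp)
    List.Pairwise.nil
  simp only [chainSum, link] at h1
  push_cast at h1
  nlinarith [h1]

end Pool.Agent.H27.Rog
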