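import Mathlib

/-!
# Packings of `K ∪ (K + v)`: definitions

Coordinates: the difference body `C = K - K` is contained in the strip `|y| ≤ 1`, contains `(0, 1)`, and
`v = (a, 0)` belongs to `C`.  `r y` is the right boundary of `C` at height `y`, `F = r + a`.
-/

set_option autoImplicit false

namespace Pool.Agent.H27.Rog

/-- The data of a normalised difference body: `r` is its right boundary function, `a = |v|`. -/
structure Shape where
  /-- right boundary of `C` at height `y ∈ [-1, 1]` -/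
  r : ℝ → ℝ
  /-- length of the (horizontal) vector `v` -/
  a : ℝ
  conc : ConcaveOn ℝ (Set.Icc (-1 : ℝ) 1) r
  nonneg : ∀ y ∈ Set.Icc (-1 : ℝ) 1, 0 ≤ r y
  pos : 0 < r 0
  a_nonneg : 0 ≤ a
  a_le : a ≤ r 0

namespace Shape

/-- right boundary of `C + [-v, v]` -/
noncomputable def F (S : Shape) (y : ℝ) : ℝ := S.r y + S.a

/-- reflection in the vertical axis (in terms of the right boundary: `y ↦ -y`). -/
noncomputable def mirror (S : Shape) : Shape where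
  r := fun y => S.r (-y)
  a := S.a
  conc := by
    refine ⟨convex_Icc _ _, ?_⟩
    intro x hx y hy a b ha hb hab
    have h := S.conc.2 (x := -x) (y := -y) ⟨by linarith [hx.2], by linarith [hx.1]⟩
      ⟨by linarith [hy.2], by linarith [hy.1]⟩ ha hb hab
    have e : a • (-x) + b • (-y) = -(a • x + b • y) := by simp only [smul_eq_mul]; ring
    rw [e] at h
    exact h
  nonneg := fun y hy => S.nonneg (-y) ⟨by linarith [hy.2], by linarith [hy.1]⟩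
  pos := by simpa using S.pos
  a_nonneg := S.a_nonneg
  a_le := by simpa using S.a_le

end Shape

/-- Admissible horizontal offset `dx > 0` of two points of the packing whose height difference `dy`
satisfies `|dy| < 1`: either far or near (in the notch). -/
def Sep (S : Shape) (dx dy : ℝ) : Prop :=
  S.F dy ≤ dx ∨ (S.r dy ≤ dx ∧ dx ≤ S.a - S.r (-dy))

/-- The vector `(x, y)` is outside the interior of `C ∪ (C + v) ∪ (C - v)`. -/
def Out (S : Shape) (x y : ℝ) : Prop :=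
  |y| < 1 → ∀ k : ℝ, (k = -1 ∨ k = 0 ∨ k = 1) → ¬ (-S.r (-y) < x - k * S.a ∧ x - k * S.a < S.r y)

/-- The facts about the critical determinant `Δ` which are used. -/
structure Crit (S : Shape) (Δ : ℝ) : Prop where
  pos : 0 < Δ
  C : ∀ q q' P₁ P₂ : ℝ, 0 ≤ q → q ≤ 1 → 0 ≤ q' → q' ≤ 1 → 1 ≤ q + q' →
    S.F (-q') ≤ P₁ → S.F q ≤ P₂ → S.F (q - q') ≤ P₁ + P₂ → Δ ≤ q * P₁ + q' * P₂
  N : ∀ q q' p P₂ : ℝ, 0 ≤ q → q < 1 → 0 ≤ q' → q' < 1 →
    S.r (-q') ≤ p → p ≤ S.a - S.r q' → S.F q ≤ P₂ → S.F (q - q') ≤ p + P₂ → Δ ≤ q * p + q' * P₂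
  N' : ∀ q q' P₁ p : ℝ, 0 ≤ q → q < 1 → 0 ≤ q' → q' < 1 →
    S.r q ≤ p → p ≤ S.a - S.r (-q) → S.F (-q') ≤ P₁ → S.F (q - q') ≤ P₁ + p → Δ ≤ q * P₁ + q' * p

/-- The value set defining `psi`. -/
def psiSet (S : Shape) (Δ P s t : ℝ) : Set ℝ :=
  {v | ∃ y : ℝ, (s + t - 1) / 2 ≤ y ∧ y ≤ 0 ∧ S.F (y - s) + S.F (t - y) ≤ P ∧
    v = (1 + 2 * y - s - t) * P + Δ - (1 - s + y) * S.F (y - s) - (1 - t + y) * S.F (t - y)}

/-- The debt of a gap of width `P` whose left and right end points have heights `s`, `t` above the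
dead line. -/
noncomputable def psi (S : Shape) (Δ P s t : ℝ) : ℝ := sSup ({0} ∪ psiSet S Δ P s t)

/-- The potential of a gap. -/
noncomputable def Dp (S : Shape) (Δ P s t : ℝ) : ℝ := psi S Δ P s t - psi S Δ P (1 - t) (1 - s)

/-- The inequalities for births and deaths. Heights are relative to the dead line. -/
structure EventIneq (S : Shape) (Δ : ℝ) : Prop where
  pos : 0 < Δ
  F0 : Δ ≤ S.F 0
  anti : ∀ P s t : ℝ, Dp S Δ P (1 - t) (1 - s) = -Dp S Δ P s t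
  mono : ∀ P s t c : ℝ, s ≤ 1 → t ≤ 1 → 0 ≤ c → c ≤ s → c ≤ t →
    Dp S Δ P s t ≤ Dp S Δ P (s - c) (t - c)
  wallL_mono : ∀ q c : ℝ, q ≤ 1 → 0 ≤ c → c ≤ q →
    (1 - (q - c)) * S.F (q - c) - (1 - q) * S.F q ≤ 2 * c * S.F (q - c)
  wallR_mono : ∀ q c : ℝ, q ≤ 1 → 0 ≤ c → c ≤ q →
    (1 - (q - c)) * S.F (-(q - c)) - (1 - q) * S.F (-q) ≤ 2 * c * S.F (-(q - c))
  mid : ∀ q q' P₁ P₂ : ℝ, 0 ≤ q → q < 1 → 0 ≤ q' → q' < 1 →
    Sep S P₁ (-q') → Sep S P₂ q → Sep S (P₁ + P₂) (q - q') →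
    Δ ≤ q * P₁ + q' * P₂ + Dp S Δ (P₁ + P₂) q' q - Dp S Δ P₁ q' 0 - Dp S Δ P₂ 0 q
  wallL_del : ∀ q P : ℝ, 0 ≤ q → q < 1 → Sep S P q →
    Δ ≤ (1 - q) * P - (1 - q) * S.F q + S.F 0 - Dp S Δ P 0 q
  wallL_ins : ∀ q P : ℝ, 0 < q → q ≤ 1 → Sep S P (q - 1) →
    Δ ≤ (1 - q) * S.F q + q * P + Dp S Δ P 1 q
  wallR_del : ∀ q' P : ℝ, 0 ≤ q' → q' < 1 → Sep S P (-q') →
    Δ ≤ (1 - q') * P - (1 - q') * S.F (-q') + S.F 0 - Dp S Δ P q' 0
  wallR_ins : ∀ q' P : ℝ, 0 < q' → q' ≤ 1 → Sep S P (1 - q') →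
    Δ ≤ (1 - q') * S.F (-q') + q' * P + Dp S Δ P q' 1

end Pool.Agent.H27.Rog
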