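import Pool.Agent.H27.Rog.Defs

/-!
# Density: from counting points in parallelograms to the upper density
-/

set_option autoImplicit false
open MeasureTheory

namespace Pool.Agent.H27.Rog

/-- the linear map `(x, y) ↦ x • e + y • w` -/
noncomputable def lin (e w : ℝ × ℝ) : (ℝ × ℝ) →ₗ[ℝ] (ℝ × ℝ) :=
  (LinearMap.fst ℝ ℝ ℝ).smulRight e + (LinearMap.snd ℝ ℝ ℝ).smulRight w

lemma lin_apply (e w p : ℝ × ℝ) : lin e w p = p.1 • e + p.2 • w := rfl

lemma det_lin (e w : ℝ × ℝ) : LinearMap.det (lin e w) = e.1 * w.2 - e.2 * w.1 := by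
  rw [← LinearMap.det_toMatrix (Module.Basis.finTwoProd ℝ), Matrix.det_fin_two]
  simp [LinearMap.toMatrix_apply, lin_apply]
  ring

/-- the square box -/
def Bx (R : ℝ) : Set (ℝ × ℝ) := Set.Icc (-R) R ×ˢ Set.Icc (-R) R

lemma volume_Bx (R : ℝ) : volume (Bx R) = ENNReal.ofReal (2 * R) * ENNReal.ofReal (2 * R) := by
  unfold Bx
  rw [Measure.volume_eq_prod, Measure.prod_prod, Real.volume_Icc]
  congr 2 <;> ring

lemma mem_Bx {R : ℝ} {p : ℝ × ℝ} : p ∈ Bx R ↔ |p.1| ≤ R ∧ |p.2| ≤ R := by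
  unfold Bx
  rw [Set.mem_prod, Set.mem_Icc, Set.mem_Icc, abs_le, abs_le]

/-- the set of corners `z` such that `t` lies in the parallelogram with corner `z` -/
noncomputable def St (e w : ℝ × ℝ) (N : ℝ) (t : ℝ × ℝ) : Set (ℝ × ℝ) :=
  (fun q => t + q) '' (lin (-e) (-w) '' (Set.Icc (0 : ℝ) N ×ˢ Set.Icc (0 : ℝ) N))

lemma mem_St {e w : ℝ × ℝ} {N : ℝ} {t z : ℝ × ℝ} :
    z ∈ St e w N t ↔ ∃ x ∈ Set.Icc (0 : ℝ) N, ∃ y ∈ Set.Icc (0 : ℝ) N, t = z + x • e + y • w := by
  unfold St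
  constructor
  · rintro ⟨_, ⟨⟨x, y⟩, ⟨hx, hy⟩, rfl⟩, rfl⟩
    refine ⟨x, hx, y, hy, ?_⟩
    simp only [lin_apply, smul_neg]
    abel
  · rintro ⟨x, hx, y, hy, h⟩
    refine ⟨_, ⟨(x, y), ⟨hx, hy⟩, rfl⟩, ?_⟩
    simp only [lin_apply, smul_neg]
    rw [h]
    abel

lemma volume_St (e w : ℝ × ℝ) (N : ℝ) (t : ℝ × ℝ) :
    volume (St e w N t) = ENNReal.ofReal |e.1 * w.2 - e.2 * w.1| *
      (ENNReal.ofReal N * ENNReal.ofReal N) := by
  unfold St
  rw [Set.image_add_left, measure_preimage_add, Measure.addHaar_image_linearMap, det_lin,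
    Measure.volume_eq_prod, Measure.prod_prod, Real.volume_Icc, sub_zero]
  congr 3
  simp only [Prod.fst_neg, Prod.snd_neg]
  ring

lemma measurableSet_St (e w : ℝ × ℝ) (N : ℝ) (t : ℝ × ℝ) : MeasurableSet (St e w N t) := by
  have h1 : IsCompact (Set.Icc (0 : ℝ) N ×ˢ Set.Icc (0 : ℝ) N) := isCompact_Icc.prod isCompact_Icc
  have h2 : IsCompact (St e w N t) := by
    refine (h1.image (lin (-e) (-w)).continuous_of_finiteDimensional).image ?_
    fun_prop
  exact h2.measurableSet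

/-- size of the parallelogram -/
noncomputable def kap (e w : ℝ × ℝ) : ℝ := |e.1| + |e.2| + |w.1| + |w.2|

lemma St_subset (e w : ℝ × ℝ) (N R : ℝ) (t : ℝ × ℝ) (ht : t ∈ Bx R) :
    St e w N t ⊆ Bx (R + N * kap e w) := by
  intro z hz
  obtain ⟨x, hx, y, hy, h⟩ := mem_St.1 hz
  rw [mem_Bx] at ht ⊢
  have hN : 0 ≤ N := hx.1.trans hx.2
  have h1 : z.1 = t.1 - x * e.1 - y * w.1 := by
    rw [h]
    simp only [Prod.fst_add, Prod.smul_fst, smul_eq_mul]
    ring
  have h2 : z.2 = t.2 - x * e.2 - y * w.2 := by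
    rw [h]
    simp only [Prod.snd_add, Prod.smul_snd, smul_eq_mul]
    ring
  have aux : ∀ s E W : ℝ, |s| ≤ R → |E| + |W| ≤ kap e w → |s - x * E - y * W| ≤
      R + N * kap e w := by
    intro s E W hs hEW
    have a1 : |x * E| ≤ N * |E| := by
      rw [abs_mul, abs_of_nonneg hx.1]
      exact mul_le_mul_of_nonneg_right hx.2 (abs_nonneg _)
    have a2 : |y * W| ≤ N * |W| := by
      rw [abs_mul, abs_of_nonneg hy.1]
      exact mul_le_mul_of_nonneg_right hy.2 (abs_nonneg _)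
    have a3 := abs_sub (s - x * E) (y * W)
    have a4 := abs_sub s (x * E)
    have a5 := mul_le_mul_of_nonneg_left hEW hN
    linarith
  constructor
  · rw [h1]
    refine aux _ _ _ ht.1 ?_
    unfold kap
    linarith [abs_nonneg e.2, abs_nonneg w.2]
  · rw [h2]
    refine aux _ _ _ ht.2 ?_
    unfold kap
    linarith [abs_nonneg e.1, abs_nonneg w.1]

/-- double counting -/
lemma card_bound (T : Set (ℝ × ℝ)) (e w : ℝ × ℝ) (Δ c : ℝ) (hΔ : 0 < Δ) (hc : 0 ≤ c)
    (hT : ∀ (N : ℝ), 0 < N → ∀ z : ℝ × ℝ, ∀ T' : Finset (ℝ × ℝ),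
      (∀ t ∈ T', t ∈ T ∧ ∃ x ∈ Set.Icc (0 : ℝ) N, ∃ y ∈ Set.Icc (0 : ℝ) N, t = z + x • e + y • w) →
      (T'.card : ℝ) * Δ ≤ (N + c) * (N + 1))
    (N R : ℝ) (hN : 0 < N) (hR : 0 ≤ R) (T' : Finset (ℝ × ℝ)) (hT' : ∀ t ∈ T', t ∈ T ∧ t ∈ Bx R) :
    (T'.card : ℝ) * (|e.1 * w.2 - e.2 * w.1| * N ^ 2) ≤
      (N + c) * (N + 1) / Δ * (2 * (R + N * kap e w)) ^ 2 := by
  classical
  have hk : 0 ≤ kap e w := by unfold kap; positivity
  have hM : 0 ≤ (N + c) * (N + 1) / Δ := by positivity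
  have hbox : 0 ≤ R + N * kap e w := by positivity
  set M := (N + c) * (N + 1) / Δ with hMdef
  have key : (T'.card : ENNReal) * (ENNReal.ofReal |e.1 * w.2 - e.2 * w.1| *
      (ENNReal.ofReal N * ENNReal.ofReal N)) ≤
      ENNReal.ofReal M * (ENNReal.ofReal (2 * (R + N * kap e w)) *
        ENNReal.ofReal (2 * (R + N * kap e w))) := by
    have e1 : (T'.card : ENNReal) * (ENNReal.ofReal |e.1 * w.2 - e.2 * w.1| *
        (ENNReal.ofReal N * ENNReal.ofReal N)) =
        ∫⁻ z, ∑ t ∈ T', (St e w N t).indicator (fun _ => (1 : ENNReal)) z := by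
      rw [lintegral_finsetSum _ fun t _ => measurable_const.indicator (measurableSet_St e w N t)]
      simp only [lintegral_indicator_const (measurableSet_St e w N _), volume_St, one_mul]
      rw [Finset.sum_const, nsmul_eq_mul]
    rw [e1, ← volume_Bx, ← lintegral_indicator_const]
    · refine lintegral_mono fun z => ?_
      by_cases hz : z ∈ Bx (R + N * kap e w)
      · rw [Set.indicator_of_mem hz]
        have e2 : ∑ t ∈ T', (St e w N t).indicator (fun _ => (1 : ENNReal)) z =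
            ((T'.filter fun t => z ∈ St e w N t).card : ENNReal) := by
          rw [Finset.card_filter]
          push_cast
          refine Finset.sum_congr rfl fun t _ => ?_
          rw [Set.indicator_apply]
        rw [e2, ← ENNReal.ofReal_natCast]
        apply ENNReal.ofReal_le_ofReal
        have h1 := hT N hN z (T'.filter fun t => z ∈ St e w N t) (fun t ht => by
          rw [Finset.mem_filter] at ht
          exact ⟨(hT' t ht.1).1, mem_St.1 ht.2⟩)
        rw [hMdef, le_div_iff₀ hΔ]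
        exact h1
      · rw [Set.indicator_of_notMem hz]
        rw [nonpos_iff_eq_zero]
        refine Finset.sum_eq_zero fun t ht => ?_
        rw [Set.indicator_of_notMem]
        intro h
        exact hz (St_subset e w N R t (hT' t ht).2 h)
    · exact measurableSet_Icc.prod measurableSet_Icc
  have hx : (T'.card : ENNReal) * (ENNReal.ofReal |e.1 * w.2 - e.2 * w.1| *
      (ENNReal.ofReal N * ENNReal.ofReal N)) =
      ENNReal.ofReal ((T'.card : ℝ) * (|e.1 * w.2 - e.2 * w.1| * N ^ 2)) := by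
    rw [ENNReal.ofReal_mul (by positivity), ENNReal.ofReal_mul (by positivity), sq,
      ENNReal.ofReal_mul hN.le, ENNReal.ofReal_natCast]
  have hy : ENNReal.ofReal M * (ENNReal.ofReal (2 * (R + N * kap e w)) *
        ENNReal.ofReal (2 * (R + N * kap e w))) =
      ENNReal.ofReal (M * (2 * (R + N * kap e w)) ^ 2) := by
    rw [ENNReal.ofReal_mul hM, sq, ENNReal.ofReal_mul (p := 2 * (R + N * kap e w)) (by positivity)]
  rw [hx, hy] at key
  exact (ENNReal.ofReal_le_ofReal_iff (by positivity)).1 key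

/-- job E -/
theorem density (D : Set (ℝ × ℝ)) (hD : IsCompact D) (T : Set (ℝ × ℝ)) (e w : ℝ × ℝ)
    (hew : e.1 * w.2 - e.2 * w.1 ≠ 0) (Δ c : ℝ) (hΔ : 0 < Δ) (hc : 0 ≤ c)
    (hT : ∀ (N : ℝ), 0 < N → ∀ z : ℝ × ℝ, ∀ T' : Finset (ℝ × ℝ),
      (∀ t ∈ T', t ∈ T ∧ ∃ x ∈ Set.Icc (0 : ℝ) N, ∃ y ∈ Set.Icc (0 : ℝ) N, t = z + x • e + y • w) →
      (T'.card : ℝ) * Δ ≤ (N + c) * (N + 1)) :
    Filter.limsup (fun R : ℝ =>
        volume ((⋃ t ∈ T, (fun x => x + t) '' D) ∩ (Set.Icc (-R) R ×ˢ Set.Icc (-R) R)) /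
          volume (Set.Icc (-R) R ×ˢ Set.Icc (-R) R)) Filter.atTop ≤
      volume D / ENNReal.ofReal (Δ * |e.1 * w.2 - e.2 * w.1|) := by
  classical
  set δ := |e.1 * w.2 - e.2 * w.1| with hδ
  have hδ0 : 0 < δ := abs_pos.2 hew
  set κ := kap e w with hκ
  have hκ0 : 0 ≤ κ := by rw [hκ]; unfold kap; positivity
  -- a bound for `D`
  obtain ⟨ρ, hρ0, hρ⟩ : ∃ ρ : ℝ, 0 ≤ ρ ∧ D ⊆ Bx ρ := by
    obtain ⟨ρ, hρ⟩ := hD.isBounded.exists_norm_le
    refine ⟨max ρ 0, le_max_right _ _, fun p hp => ?_⟩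
    have h1 := (hρ p hp).trans (le_max_left ρ 0)
    rw [mem_Bx]
    exact ⟨(norm_fst_le p).trans h1, (norm_snd_le p).trans h1⟩
  -- the bound
  set g : ℝ → ℝ := fun R => (Real.sqrt R + c) * (Real.sqrt R + 1) / Δ *
    (2 * (R + ρ + Real.sqrt R * κ)) ^ 2 / (δ * Real.sqrt R ^ 2) / (2 * R) ^ 2 with hg
  have hbound : ∀ R : ℝ, 0 < R →
      volume ((⋃ t ∈ T, (fun x => x + t) '' D) ∩ (Set.Icc (-R) R ×ˢ Set.Icc (-R) R)) /
          volume (Set.Icc (-R) R ×ˢ Set.Icc (-R) R) ≤ volume D * ENNReal.ofReal (g R) := by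
    intro R hR
    have hs : 0 < Real.sqrt R := Real.sqrt_pos.2 hR
    set B := (Real.sqrt R + c) * (Real.sqrt R + 1) / Δ *
      (2 * (R + ρ + Real.sqrt R * κ)) ^ 2 / (δ * Real.sqrt R ^ 2) with hB
    have hcard : ∀ T' : Finset (ℝ × ℝ), (∀ t ∈ T', t ∈ T ∧ t ∈ Bx (R + ρ)) →
        (T'.card : ℝ) ≤ B := by
      intro T' hT'
      have h1 := card_bound T e w Δ c hΔ hc hT (Real.sqrt R) (R + ρ) hs (by positivity) T' hT'
      rw [hB, le_div_iff₀ (by positivity)]
      exact h1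
    have hfin : (T ∩ Bx (R + ρ)).Finite := by
      by_contra hinf
      obtain ⟨T', hsub, hcd⟩ := Set.Infinite.exists_subset_card_eq hinf (⌊B⌋₊ + 1)
      have h1 := hcard T' (fun t ht => hsub ht)
      rw [hcd] at h1
      have h2 := Nat.lt_floor_add_one B
      push_cast at h1
      linarith
    set T0 := hfin.toFinset with hT0
    have hsub : (⋃ t ∈ T, (fun x => x + t) '' D) ∩ (Set.Icc (-R) R ×ˢ Set.Icc (-R) R) ⊆
        ⋃ t ∈ T0, (fun x => x + t) '' D := by
      rintro p ⟨hp, hpR⟩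
      simp only [Set.mem_iUnion] at hp ⊢
      obtain ⟨t, ht, x, hx, rfl⟩ := hp
      refine ⟨t, ?_, x, hx, rfl⟩
      rw [hT0, Set.Finite.mem_toFinset]
      refine ⟨ht, ?_⟩
      have h1 := mem_Bx.1 (hρ hx)
      have h2 := mem_Bx.1 (show x + t ∈ Bx R from hpR)
      rw [mem_Bx]
      simp only [Prod.fst_add, Prod.snd_add] at h2
      constructor
      · have h3 := abs_sub (x.1 + t.1) x.1
        rw [add_sub_cancel_left] at h3
        linarith [h2.1, h1.1]
      · have h3 := abs_sub (x.2 + t.2) x.2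
        rw [add_sub_cancel_left] at h3
        linarith [h2.2, h1.2]
    have hvol : volume ((⋃ t ∈ T, (fun x => x + t) '' D) ∩ (Set.Icc (-R) R ×ˢ Set.Icc (-R) R)) ≤
        (T0.card : ENNReal) * volume D := by
      refine (measure_mono hsub).trans ((measure_biUnion_finset_le T0 _).trans ?_)
      have h1 : ∀ t : ℝ × ℝ, volume ((fun x => x + t) '' D) = volume D := by
        intro t
        rw [Set.image_add_right, measure_preimage_add_right]
      simp only [h1]
      rw [Finset.sum_const, nsmul_eq_mul]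
    have hT0c : (T0.card : ℝ) ≤ B := hcard T0 (fun t ht => by
      rw [hT0, Set.Finite.mem_toFinset] at ht
      exact ht)
    have hvB : volume (Set.Icc (-R) R ×ˢ Set.Icc (-R) R) = ENNReal.ofReal ((2 * R) ^ 2) := by
      have h1 := volume_Bx R
      unfold Bx at h1
      rw [h1, sq, ENNReal.ofReal_mul (p := 2 * R) (by positivity)]
    rw [hvB]
    calc volume ((⋃ t ∈ T, (fun x => x + t) '' D) ∩ (Set.Icc (-R) R ×ˢ Set.Icc (-R) R)) /
          ENNReal.ofReal ((2 * R) ^ 2)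
        ≤ (ENNReal.ofReal B * volume D) / ENNReal.ofReal ((2 * R) ^ 2) := by
          refine ENNReal.div_le_div_right (hvol.trans ?_) _
          refine mul_le_mul_left ?_ _
          rw [← ENNReal.ofReal_natCast]
          exact ENNReal.ofReal_le_ofReal hT0c
      _ = volume D * ENNReal.ofReal (g R) := by
          have h1 : g R = B / (2 * R) ^ 2 := rfl
          rw [h1, ENNReal.ofReal_div_of_pos (x := B) (y := (2 * R) ^ 2) (by positivity),
            mul_comm (ENNReal.ofReal B), mul_div_assoc]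
  -- the limit of the bound
  have hglim : Filter.Tendsto g Filter.atTop (nhds (1 / (Δ * δ))) := by
    have hsq : Filter.Tendsto Real.sqrt Filter.atTop Filter.atTop := Real.tendsto_sqrt_atTop
    have hinv : Filter.Tendsto (fun R => (Real.sqrt R)⁻¹) Filter.atTop (nhds 0) :=
      tendsto_inv_atTop_zero.comp hsq
    have h1 : Filter.Tendsto (fun R => (1 + c * (Real.sqrt R)⁻¹) * (1 + (Real.sqrt R)⁻¹) / Δ *
        (1 + ρ * ((Real.sqrt R)⁻¹ * (Real.sqrt R)⁻¹) + (Real.sqrt R)⁻¹ * κ) ^ 2 / δ) Filter.atTop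
        (nhds ((1 + c * 0) * (1 + 0) / Δ * (1 + ρ * (0 * 0) + 0 * κ) ^ 2 / δ)) := by
      refine Filter.Tendsto.div_const (Filter.Tendsto.mul (Filter.Tendsto.div_const
        (Filter.Tendsto.mul (tendsto_const_nhds.add (tendsto_const_nhds.mul hinv))
          (tendsto_const_nhds.add hinv)) _) (Filter.Tendsto.pow ?_ 2)) _
      exact (tendsto_const_nhds.add (tendsto_const_nhds.mul (hinv.mul hinv))).add
        (hinv.mul tendsto_const_nhds)
    have h2 : (1 + c * 0) * (1 + 0) / Δ * (1 + ρ * (0 * 0) + 0 * κ) ^ 2 / δ = 1 / (Δ * δ) := by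
      field_simp
      ring
    rw [h2] at h1
    refine h1.congr' ?_
    filter_upwards [Filter.eventually_gt_atTop (0 : ℝ)] with R hR
    have hs : 0 < Real.sqrt R := Real.sqrt_pos.2 hR
    have hRs : R = Real.sqrt R ^ 2 := (Real.sq_sqrt hR.le).symm
    rw [hg]
    simp only
    generalize Real.sqrt R = s at hs hRs ⊢
    subst hRs
    field_simp
  have hlim : Filter.Tendsto (fun R => volume D * ENNReal.ofReal (g R)) Filter.atTop
      (nhds (volume D / ENNReal.ofReal (Δ * δ))) := by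
    have h1 : volume D / ENNReal.ofReal (Δ * δ) = volume D * ENNReal.ofReal (1 / (Δ * δ)) := by
      rw [ENNReal.ofReal_div_of_pos (by positivity), ENNReal.ofReal_one, one_div, div_eq_mul_inv]
    rw [h1]
    refine ENNReal.Tendsto.const_mul (ENNReal.tendsto_ofReal hglim) (Or.inr ?_)
    exact hD.measure_lt_top.ne
  rw [← hlim.limsup_eq]
  refine Filter.limsup_le_limsup ?_
  filter_upwards [Filter.eventually_gt_atTop (0 : ℝ)] with R hR
  exact hbound R hR

end Pool.Agent.H27.Rog
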