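import Pool.Agent.H27.Rog.Basic

/-!
# The event inequalities
-/

set_option autoImplicit false

namespace Pool.Agent.H27.Rog

variable {S : Shape} {Δ : ℝ}

/-! ### elementary facts on `psi` -/

theorem psi_nonneg (P s t : ℝ) : 0 ≤ psi S Δ P s t :=
  Real.sSup_nonneg' ⟨0, Or.inl rfl, le_rfl⟩

theorem psi_le {P s t b : ℝ} (hb : 0 ≤ b) (h : ∀ v ∈ psiSet S Δ P s t, v ≤ b) :
    psi S Δ P s t ≤ b := by
  refine csSup_le (s := {0} ∪ psiSet S Δ P s t) ⟨0, Or.inl rfl⟩ ?_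
  rintro v (hv | hv)
  · rw [Set.mem_singleton_iff] at hv; rw [hv]; exact hb
  · exact h v hv

theorem psiSet_bdd {P s t : ℝ} (hs0 : 0 ≤ s) (hs1 : s ≤ 1) (ht0 : 0 ≤ t) (ht1 : t ≤ 1) :
    BddAbove ({0} ∪ psiSet S Δ P s t) := by
  refine ⟨|P| + |Δ|, ?_⟩
  rintro v (hv | ⟨y, h1, h2, h3, rfl⟩)
  · rw [Set.mem_singleton_iff] at hv; rw [hv]; positivity
  · have a1 := S.Fnn (y := y - s) (by linarith) (by linarith)
    have a2 := S.Fnn (y := t - y) (by linarith) (by linarith)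
    have b1 : 0 ≤ (1 - s + y) * S.F (y - s) := mul_nonneg (by linarith) a1
    have b2 : 0 ≤ (1 - t + y) * S.F (t - y) := mul_nonneg (by linarith) a2
    have b3 : (1 + 2 * y - s - t) * P ≤ 1 * |P| := by
      have : (1 + 2 * y - s - t) * P ≤ (1 + 2 * y - s - t) * |P| :=
        mul_le_mul_of_nonneg_left (le_abs_self P) (by linarith)
      exact this.trans (mul_le_mul_of_nonneg_right (by linarith) (abs_nonneg P))
    have b4 := le_abs_self Δ
    linarith

theorem le_psi {P s t v : ℝ} (hs0 : 0 ≤ s) (hs1 : s ≤ 1) (ht0 : 0 ≤ t) (ht1 : t ≤ 1)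
    (hv : v ∈ psiSet S Δ P s t) : v ≤ psi S Δ P s t :=
  le_csSup (psiSet_bdd hs0 hs1 ht0 ht1) (Or.inr hv)

theorem psi_mono {P s t c : ℝ} (hs1 : s ≤ 1) (ht1 : t ≤ 1) (hc0 : 0 ≤ c) (hcs : c ≤ s)
    (hct : c ≤ t) : psi S Δ P s t ≤ psi S Δ P (s - c) (t - c) := by
  apply psi_le (psi_nonneg _ _ _)
  rintro v ⟨y, h1, h2, h3, rfl⟩
  apply le_psi (by linarith) (by linarith) (by linarith) (by linarith)
  refine ⟨y - c, by linarith, by linarith, ?_, ?_⟩
  · rw [show y - c - (s - c) = y - s by ring, show t - c - (y - c) = t - y by ring]; exact h3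
  · rw [show y - c - (s - c) = y - s by ring, show t - c - (y - c) = t - y by ring]; ring

theorem psi_empty {P s t : ℝ} (h : 1 < s + t) : psi S Δ P s t = 0 := by
  apply le_antisymm _ (psi_nonneg _ _ _)
  apply psi_le le_rfl
  rintro v ⟨y, h1, h2, h3, rfl⟩
  exfalso; linarith

/-- a near pair carries no debt -/
theorem psi_near {P q' : ℝ} (hq0 : 0 ≤ q') (hq1 : q' < 1) (hP : P < S.F (-q')) :
    psi S Δ P q' 0 = 0 := by
  apply le_antisymm _ (psi_nonneg _ _ _)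
  apply psi_le le_rfl
  rintro v ⟨y, h1, h2, h3, rfl⟩
  exfalso
  have := S.add_F' (x := y - q') (y := 0 - y) (by rw [abs_le]; constructor <;> linarith)
    (by rw [abs_le]; constructor <;> linarith)
  rw [show y - q' + (0 - y) = -q' by ring] at this
  linarith

theorem Crit.lam (h : Crit S Δ) {t : ℝ} (h0 : 0 ≤ t) (h1 : t ≤ 1) :
    Δ ≤ (1 - t) * S.F t + t * S.F (t - 1) := by
  have key := h.C t (1 - t) (S.F (-(1 - t))) (S.F t) h0 h1 (by linarith) (by linarith) (by linarith)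
    le_rfl le_rfl ?_
  · rw [show -(1 - t) = t - 1 by ring] at key; linarith
  · have := S.add_F' (x := t - 1) (y := t) (by rw [abs_le]; constructor <;> linarith)
      (by rw [abs_le]; constructor <;> linarith)
    rw [show t - 1 + t = t - (1 - t) by ring] at this
    rw [show -(1 - t) = t - 1 by ring]; exact this

theorem Crit.F0 (h : Crit S Δ) : Δ ≤ S.F 0 := by
  have := h.lam (t := 0) le_rfl (by norm_num)
  linarith

/-! ### the lower clusters -/

/-- main bound for the debt of a gap whose right end point dies now -/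
theorem K_bound (h : Crit S Δ) {q' P v : ℝ} (hq0 : 0 ≤ q') (hq1 : q' < 1)
    (hv : v ∈ psiSet S Δ P q' 0) :
    ∃ t : ℝ, 0 ≤ t ∧ t ≤ 1 ∧
      (1 - t) * (S.F 0 - Δ) + t * ((1 - q') * (S.F ((1 - q') / 2 - 1) + S.F ((1 - q') / 2)
        - S.F (-q'))) ≤ (1 - q') * (P - S.F (-q')) - v := by
  obtain ⟨θ, rfl⟩ : ∃ θ, q' = 1 - 2 * θ := ⟨(1 - q') / 2, by ring⟩
  obtain ⟨y, h1, h2, h3, rfl⟩ := hv
  have eθ : (1 - (1 - 2 * θ)) / 2 = θ := by ring
  rw [eθ]
  have hθ0 : 0 < θ := by linarith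
  have hlam := h.lam (t := θ) hθ0.le (by linarith)
  obtain ⟨t, ht⟩ : ∃ t, t = -y / θ := ⟨_, rfl⟩
  have hy : y = -(t * θ) := by rw [ht]; field_simp
  have ht0 : 0 ≤ t := by rw [ht]; exact div_nonneg (by linarith) hθ0.le
  have ht1 : t ≤ 1 := by rw [ht, div_le_one hθ0]; linarith
  refine ⟨t, ht0, ht1, ?_⟩
  have e1 : y - (1 - 2 * θ) = (1 - t) * (-(1 - 2 * θ)) + t * (θ - 1) := by rw [hy]; ring
  have e2 : 0 - y = (1 - t) * 0 + t * θ := by rw [hy]; ring
  have c1 : (1 - t) * S.F (-(1 - 2 * θ)) + t * S.F (θ - 1) ≤ S.F (y - (1 - 2 * θ)) := by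
    rw [e1]; exact S.Fc (by linarith) (by linarith) (by linarith) (by linarith) ht0 ht1
  have c2 : (1 - t) * S.F 0 + t * S.F θ ≤ S.F (0 - y) := by
    rw [e2]; exact S.Fc (by norm_num) (by norm_num) (by linarith) (by linarith) ht0 ht1
  have c3 : S.F (θ - 1) + S.F θ ≤ S.F (-(1 - 2 * θ)) + S.F 0 :=
    S.F4 (by linarith) (by linarith) (by linarith) (by linarith) (by ring)
  generalize S.F (y - (1 - 2 * θ)) = A at *
  generalize S.F (0 - y) = B at *
  generalize S.F (-(1 - 2 * θ)) = A0 at *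
  generalize S.F 0 = B0 at *
  generalize S.F (θ - 1) = A1 at *
  generalize S.F θ = B1 at *
  have m1 : 0 ≤ t * θ * (P - (A + B)) := mul_nonneg (mul_nonneg ht0 hθ0.le) (by linarith)
  have m2 : 0 ≤ (2 * θ + t * θ) * (A - ((1 - t) * A0 + t * A1)) :=
    mul_nonneg (by positivity) (by linarith)
  have m3 : 0 ≤ (1 + t * θ) * (B - ((1 - t) * B0 + t * B1)) :=
    mul_nonneg (by positivity) (by linarith)
  have m4 : 0 ≤ t * (θ * (1 - t)) * (A0 + B0 - (A1 + B1)) :=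
    mul_nonneg (mul_nonneg ht0 (mul_nonneg hθ0.le (by linarith))) (by linarith)
  have m5 : 0 ≤ t * ((1 - θ) * B1 + θ * A1 - Δ) := mul_nonneg ht0 (by linarith)
  subst hy
  nlinarith [m1, m2, m3, m4, m5]

theorem K_nonneg_set (h : Crit S Δ) {q' P v : ℝ} (hq0 : 0 ≤ q') (hq1 : q' < 1)
    (hv : v ∈ psiSet S Δ P q' 0) : v ≤ (1 - q') * (P - S.F (-q')) := by
  obtain ⟨t, ht0, ht1, hK⟩ := K_bound h hq0 hq1 hv
  have hF0 := h.F0
  have g : 0 ≤ S.F ((1 - q') / 2 - 1) + S.F ((1 - q') / 2) - S.F (-q') := by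
    have := S.add_F' (x := (1 - q') / 2 - 1) (y := (1 - q') / 2)
      (by rw [abs_le]; constructor <;> linarith) (by rw [abs_le]; constructor <;> linarith)
    rw [show (1 - q') / 2 - 1 + (1 - q') / 2 = -q' by ring] at this
    linarith
  have := mul_nonneg (sub_nonneg.2 ht1) (sub_nonneg.2 hF0)
  have := mul_nonneg ht0 (mul_nonneg (sub_nonneg.2 hq1.le) g)
  linarith

theorem K_nonneg (h : Crit S Δ) {q' P : ℝ} (hq0 : 0 ≤ q') (hq1 : q' < 1) (hP : S.F (-q') ≤ P) :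
    psi S Δ P q' 0 ≤ (1 - q') * (P - S.F (-q')) :=
  psi_le (mul_nonneg (by linarith) (by linarith)) fun _ hv => K_nonneg_set h hq0 hq1 hv

theorem mem_psiSet_mirror {P s t v : ℝ} :
    v ∈ psiSet S.mirror Δ P s t ↔ v ∈ psiSet S Δ P t s := by
  constructor
  · rintro ⟨y, h1, h2, h3, h4⟩
    simp only [Shape.mirror_F] at h3 h4
    refine ⟨y, by linarith, h2, ?_, ?_⟩
    · rw [show y - t = -(t - y) by ring, show s - y = -(y - s) by ring]; linarith
    · rw [h4, show y - t = -(t - y) by ring, show s - y = -(y - s) by ring]; ring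
  · rintro ⟨y, h1, h2, h3, h4⟩
    refine ⟨y, by linarith, h2, ?_, ?_⟩
    · simp only [Shape.mirror_F]
      rw [show -(y - s) = s - y by ring, show -(t - y) = y - t by ring]; linarith
    · simp only [Shape.mirror_F]
      rw [h4, show -(y - s) = s - y by ring, show -(t - y) = y - t by ring]; ring

/-! ### the upper cluster -/

theorem M_bound (h : Crit S Δ) {q q' P v : ℝ} (hq0 : 0 ≤ q) (hq1 : q ≤ 1) (hq'0 : 0 ≤ q')
    (hq'1 : q' ≤ 1) (hs : 1 ≤ q + q') (hv : v ∈ psiSet S Δ P (1 - q) (1 - q')) :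
    S.F ((q - q' - 1) / 2) + S.F ((q - q' + 1) / 2) ≤ P ∧
    ∃ β : ℝ, 0 ≤ β ∧ β ≤ 1 ∧
      β * (q * S.F (q - 1) + q' * S.F (1 - q') - Δ) + (1 - β) * ((q + q' - 1) *
        (S.F ((q - q' - 1) / 2) + S.F ((q - q' + 1) / 2))) ≤ (q + q' - 1) * P - v := by
  obtain ⟨y, h1, h2, h3, rfl⟩ := hv
  have hlam := h.lam (t := (q - q' + 1) / 2) (by linarith) (by linarith)
  have e0 : (q - q' + 1) / 2 - 1 = (q - q' - 1) / 2 := by ring
  rw [e0] at hlam
  have c4 : S.F ((q - q' - 1) / 2) + S.F ((q - q' + 1) / 2) ≤ S.F (y - (1 - q)) + S.F (1 - q' - y) :=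
    S.F4 (by linarith) (by linarith) (by linarith) (by linarith) (by ring)
  refine ⟨c4.trans h3, ?_⟩
  obtain ⟨β, hβ0, hβ1, hy⟩ : ∃ β : ℝ, 0 ≤ β ∧ β ≤ 1 ∧ y = -((1 - β) * ((q + q' - 1) / 2)) := by
    rcases eq_or_lt_of_le hs with e | e
    · exact ⟨1, by norm_num, le_rfl, by rw [← e]; linarith⟩
    · have hp : 0 < (q + q' - 1) / 2 := by linarith
      refine ⟨1 + y / ((q + q' - 1) / 2), ?_, ?_, ?_⟩
      · have : -1 ≤ y / ((q + q' - 1) / 2) := by
          rw [le_div_iff₀ hp]; linarith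
        linarith
      · have : y / ((q + q' - 1) / 2) ≤ 0 := div_nonpos_of_nonpos_of_nonneg h2 hp.le
        linarith
      · have : y / ((q + q' - 1) / 2) * ((q + q' - 1) / 2) = y := div_mul_cancel₀ _ hp.ne'
        linarith
  refine ⟨β, hβ0, hβ1, ?_⟩
  have e1 : y - (1 - q) = (1 - (1 - β)) * (q - 1) + (1 - β) * ((q - q' - 1) / 2) := by
    rw [hy]; ring
  have e2 : 1 - q' - y = (1 - (1 - β)) * (1 - q') + (1 - β) * ((q - q' + 1) / 2) := by
    rw [hy]; ring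
  have c1 : (1 - (1 - β)) * S.F (q - 1) + (1 - β) * S.F ((q - q' - 1) / 2) ≤ S.F (y - (1 - q)) := by
    rw [e1]; exact S.Fc (by linarith) (by linarith) (by linarith) (by linarith) (by linarith)
      (by linarith)
  have c2 : (1 - (1 - β)) * S.F (1 - q') + (1 - β) * S.F ((q - q' + 1) / 2) ≤ S.F (1 - q' - y) := by
    rw [e2]; exact S.Fc (by linarith) (by linarith) (by linarith) (by linarith) (by linarith)
      (by linarith)
  have c3 : S.F ((q - q' - 1) / 2) + S.F ((q - q' + 1) / 2) ≤ S.F (q - 1) + S.F (1 - q') :=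
    S.F4 (by linarith) (by linarith) (by linarith) (by linarith) (by ring)
  generalize S.F (y - (1 - q)) = A at *
  generalize S.F (1 - q' - y) = B at *
  generalize S.F (q - 1) = a0 at *
  generalize S.F (1 - q') = b0 at *
  generalize S.F ((q - q' - 1) / 2) = a1 at *
  generalize S.F ((q - q' + 1) / 2) = b1 at *
  obtain ⟨g, hg⟩ : ∃ g, g = (q + q' - 1) / 2 := ⟨_, rfl⟩
  have hg0 : 0 ≤ g := by rw [hg]; linarith
  have hz0 : 0 ≤ (1 - β) * g := mul_nonneg (by linarith) hg0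
  rw [← hg] at hy
  have m1 : 0 ≤ (1 - β) * g * (P - (A + B)) := mul_nonneg hz0 (by linarith)
  have m2 : 0 ≤ (q + (1 - β) * g) * (A - (β * a0 + (1 - β) * a1)) :=
    mul_nonneg (by linarith) (by linarith)
  have m3 : 0 ≤ (q' + (1 - β) * g) * (B - (β * b0 + (1 - β) * b1)) :=
    mul_nonneg (by linarith) (by linarith)
  have m4 : 0 ≤ (1 - β) * (β * g) * (a0 + b0 - (a1 + b1)) :=
    mul_nonneg (mul_nonneg (by linarith) (mul_nonneg hβ0 hg0)) (by linarith)
  have m5 : 0 ≤ (1 - β) * ((1 - (q - q' + 1) / 2) * b1 + (q - q' + 1) / 2 * a1 - Δ) :=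
    mul_nonneg (by linarith) (by linarith)
  have hq'e : q' = 2 * g + 1 - q := by rw [hg]; ring
  clear e1 e2 h1 h2 h3 c1 c2 c3 c4 hlam hg e0
  subst hy
  subst hq'e
  nlinarith [m1, m2, m3, m4, m5]

/-! ### arithmetic core of the steep case -/

theorem steep_core {q q' b1 b2 P₁ P₂ d1 d2 du m U1 β : ℝ}
    (hK0 : 0 ≤ (1 - q') * (P₁ - b1) - d1 + ((1 - q) * (P₂ - b2) - d2))
    (hKW : 0 ≤ (1 - q') * (P₁ - b1) - d1 + ((1 - q) * (P₂ - b2) - d2) +
      ((1 - q') * b1 + (1 - q) * b2 - Δ + (q + q' - 1) * m))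
    (hβ0 : 0 ≤ β) (hβ1 : β ≤ 1)
    (hM : β * (U1 - Δ) + (1 - β) * ((q + q' - 1) * m) ≤ (q + q' - 1) * (P₁ + P₂) - du)
    (hA : 2 * Δ ≤ (1 - q') * b1 + (1 - q) * b2 + U1) :
    d1 + d2 + du + Δ ≤ q * P₁ + q' * P₂ := by
  nlinarith [mul_nonneg hβ0 hK0, mul_nonneg (sub_nonneg.2 hβ1) hKW,
    mul_nonneg hβ0 (sub_nonneg.2 hA)]

/-- Jensen -/
theorem jensen (S : Shape) {q q' : ℝ} (hq1 : q < 1) (hq'1 : q' < 1)
    (hs : 1 ≤ q + q') :
    q * S.F (q - 1) + q' * S.F (1 - q') ≤ S.F 0 + (q + q' - 1) * S.F (q - q') := by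
  have h1 := S.F3 (u := q - 1) (v := 0) (w := 1 - q') (by linarith) (by linarith) (by linarith)
    (by linarith)
  have h2 := S.F3 (u := q - 1) (v := q - q') (w := 1 - q') (by linarith) (by linarith) (by linarith)
    (by linarith)
  have hp : 0 < 2 - q - q' := by linarith
  have h3 := mul_nonneg (sub_nonneg.2 hs) (sub_nonneg.2 h2)
  have : (2 - q - q') * (q * S.F (q - 1) + q' * S.F (1 - q')) ≤
      (2 - q - q') * (S.F 0 + (q + q' - 1) * S.F (q - q')) := by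
    nlinarith [h1, h3]
  exact le_of_mul_le_mul_left this hp

end Pool.Agent.H27.Rog
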