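import Pool.Agent.H27.Rog.Events

/-!
# The event inequalities, part 2
-/

set_option autoImplicit false

namespace Pool.Agent.H27.Rog

variable {S : Shape} {Δ : ℝ}

/-- the lower cluster on the left side -/
theorem K_alt (h : Crit S Δ) {q' P d g W : ℝ} (hq0 : 0 ≤ q') (hq1 : q' < 1) (hP : S.F (-q') ≤ P)
    (hd : d = 0 ∨ d ∈ psiSet S Δ P q' 0)
    (hg : g ≤ S.F ((1 - q') / 2 - 1) + S.F ((1 - q') / 2) - S.F (-q'))
    (hW1 : 0 ≤ S.F 0 - Δ + W) (hW2 : 0 ≤ (1 - q') * g + W) :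
    0 ≤ (1 - q') * (P - S.F (-q')) - d ∧ (d = 0 ∨ 0 ≤ (1 - q') * (P - S.F (-q')) - d + W) := by
  rcases hd with hd | hd
  · exact ⟨by rw [hd]; have := mul_nonneg (sub_nonneg.2 hq1.le) (sub_nonneg.2 hP); linarith,
      Or.inl hd⟩
  · refine ⟨by have := K_nonneg_set h hq0 hq1 hd; linarith, Or.inr ?_⟩
    obtain ⟨t, ht0, ht1, hK⟩ := K_bound h hq0 hq1 hd
    have a1 := mul_nonneg (sub_nonneg.2 ht1) hW1
    have a2 := mul_nonneg ht0 hW2
    have a3 := mul_nonneg ht0 (mul_nonneg (sub_nonneg.2 hq1.le) (sub_nonneg.2 hg))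
    nlinarith [a1, a2, a3, hK]

/-- the lower cluster on the right side -/
theorem K_alt' (h : Crit S Δ) {q P d g W : ℝ} (hq0 : 0 ≤ q) (hq1 : q < 1) (hP : S.F q ≤ P)
    (hd : d = 0 ∨ d ∈ psiSet S Δ P 0 q)
    (hg : g ≤ S.F (1 - (1 - q) / 2) + S.F (-((1 - q) / 2)) - S.F q)
    (hW1 : 0 ≤ S.F 0 - Δ + W) (hW2 : 0 ≤ (1 - q) * g + W) :
    0 ≤ (1 - q) * (P - S.F q) - d ∧ (d = 0 ∨ 0 ≤ (1 - q) * (P - S.F q) - d + W) := by
  have := K_alt (S := S.mirror) h.mirror (q' := q) (P := P) (d := d) (g := g) (W := W) hq0 hq1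
    (by simpa using hP) (by rw [mem_psiSet_mirror]; exact hd)
    (by simp only [Shape.mirror_F, neg_neg]
        rw [show -((1 - q) / 2 - 1) = 1 - (1 - q) / 2 by ring]; exact hg)
    (by simpa using hW1) hW2
  simpa using this

theorem steep_ff (h : Crit S Δ) {q q' P₁ P₂ d1 d2 du : ℝ} (hq0 : 0 ≤ q) (hq1 : q < 1)
    (hq'0 : 0 ≤ q') (hq'1 : q' < 1) (hs : 1 ≤ q + q') (h1 : S.F (-q') ≤ P₁) (h2 : S.F q ≤ P₂)
    (h12 : S.F (q - q') ≤ P₁ + P₂) (hd1 : d1 = 0 ∨ d1 ∈ psiSet S Δ P₁ q' 0)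
    (hd2 : d2 = 0 ∨ d2 ∈ psiSet S Δ P₂ 0 q)
    (hdu : du = 0 ∨ du ∈ psiSet S Δ (P₁ + P₂) (1 - q) (1 - q')) :
    d1 + d2 + du + Δ ≤ q * P₁ + q' * P₂ := by
  obtain ⟨m, hm⟩ : ∃ m, m = max (S.F (q - q')) (S.F (-q') + S.F q) := ⟨_, rfl⟩
  obtain ⟨g, hg⟩ : ∃ g, g = m - (S.F (-q') + S.F q) := ⟨_, rfl⟩
  have hmF : S.F (q - q') ≤ m := by rw [hm]; exact le_max_left _ _
  have hmG : S.F (-q') + S.F q ≤ m := by rw [hm]; exact le_max_right _ _
  have hg0 : 0 ≤ g := by rw [hg]; linarith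
  have hmP : m ≤ P₁ + P₂ := by rw [hm]; exact max_le h12 (by linarith)
  have ha := S.a_nonneg
  -- facts on Δ
  have A1 := h.lam (t := 1 - q') (by linarith) (by linarith)
  have A2 := h.lam (t := q) hq0 hq1.le
  rw [show 1 - (1 - q') = q' by ring, show 1 - q' - 1 = -q' by ring] at A1
  have hC1 := h.C q q' (S.F (-q') + g) (S.F q) hq0 hq1.le hq'0 hq'1.le hs (by linarith) le_rfl
    (by rw [hg]; linarith)
  have hC2 := h.C q q' (S.F (-q')) (S.F q + g) hq0 hq1.le hq'0 hq'1.le hs le_rfl (by linarith)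
    (by rw [hg]; linarith)
  have hJ := jensen S hq1 hq'1 hs
  -- W
  obtain ⟨W, hW⟩ : ∃ W, W = (1 - q') * S.F (-q') + (1 - q) * S.F q - Δ + (q + q' - 1) * m :=
    ⟨_, rfl⟩
  have hmg : m = S.F (-q') + S.F q + g := by rw [hg]; ring
  have hsm := mul_le_mul_of_nonneg_left hmF (sub_nonneg.2 hs)
  have hW1 : 0 ≤ S.F 0 - Δ + W := by rw [hW]; linarith
  have hW2 : 0 ≤ (1 - q') * g + W := by rw [hW, hmg]; nlinarith [hC1]
  have hW3 : 0 ≤ (1 - q) * g + W := by rw [hW, hmg]; nlinarith [hC2]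
  -- bounds for the clusters
  have t1 := S.three_r (q := q) (q' := q') hq0 hq1.le hq'0 hq'1.le
  have t2 := S.mirror.three_r (q := q') (q' := q) hq'0 hq'1.le hq0 hq1.le
  simp only [Shape.mirror_r] at t2
  rw [show -(q' - q) = q - q' by ring, show -((1 - q) / 2 - 1) = 1 - (1 - q) / 2 by ring] at t2
  have s1 := S.add_F' (x := (1 - q') / 2 - 1) (y := (1 - q') / 2)
      (by rw [abs_le]; constructor <;> linarith) (by rw [abs_le]; constructor <;> linarith)
  rw [show (1 - q') / 2 - 1 + (1 - q') / 2 = -q' by ring] at s1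
  have s2 := S.add_F' (x := 1 - (1 - q) / 2) (y := -((1 - q) / 2))
      (by rw [abs_le]; constructor <;> linarith) (by rw [abs_le]; constructor <;> linarith)
  rw [show 1 - (1 - q) / 2 + -((1 - q) / 2) = q by ring] at s2
  have g1 : g ≤ S.F ((1 - q') / 2 - 1) + S.F ((1 - q') / 2) - S.F (-q') := by
    rw [hg]
    have : m ≤ S.F ((1 - q') / 2 - 1) + S.F ((1 - q') / 2) + S.F q := by
      rw [hm]; apply max_le
      · unfold Shape.F; linarith
      · linarith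
    linarith
  have g2 : g ≤ S.F (1 - (1 - q) / 2) + S.F (-((1 - q) / 2)) - S.F q := by
    rw [hg]
    have : m ≤ S.F (1 - (1 - q) / 2) + S.F (-((1 - q) / 2)) + S.F (-q') := by
      rw [hm]; apply max_le
      · unfold Shape.F; linarith
      · linarith
    linarith
  obtain ⟨k1, k1'⟩ := K_alt h hq'0 hq'1 h1 hd1 g1 hW1 hW2
  obtain ⟨k2, k2'⟩ := K_alt' h hq0 hq1 h2 hd2 g2 hW1 hW3
  have hKW : 0 ≤ (1 - q') * (P₁ - S.F (-q')) - d1 + ((1 - q) * (P₂ - S.F q) - d2) + W := by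
    rcases k1' with k1' | k1'
    · rcases k2' with k2' | k2'
      · rw [k1', k2']
        have hsum : g ≤ (P₁ - S.F (-q')) + (P₂ - S.F q) := by rw [hg]; linarith
        rcases le_total q q' with hqq | hqq
        · have := mul_le_mul_of_nonneg_left hsum (sub_nonneg.2 hq'1.le)
          have := mul_nonneg (sub_nonneg.2 hqq) (sub_nonneg.2 h2)
          nlinarith
        · have := mul_le_mul_of_nonneg_left hsum (sub_nonneg.2 hq1.le)
          have := mul_nonneg (sub_nonneg.2 hqq) (sub_nonneg.2 h1)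
          nlinarith
      · linarith
    · linarith
  -- upper side
  have hF4 : S.F (-q') + S.F q ≤ S.F ((q - q' - 1) / 2) + S.F ((q - q' + 1) / 2) :=
    S.F4 (by linarith) (by linarith) (by linarith) (by linarith) (by ring)
  have hadd := S.add_F' (x := (q - q' - 1) / 2) (y := (q - q' + 1) / 2)
      (by rw [abs_le]; constructor <;> linarith) (by rw [abs_le]; constructor <;> linarith)
  rw [show (q - q' - 1) / 2 + (q - q' + 1) / 2 = q - q' by ring] at hadd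
  obtain ⟨β, hβ0, hβ1, hM⟩ : ∃ β : ℝ, 0 ≤ β ∧ β ≤ 1 ∧
      β * (q * S.F (q - 1) + q' * S.F (1 - q') - Δ) + (1 - β) * ((q + q' - 1) * m)
        ≤ (q + q' - 1) * (P₁ + P₂) - du := by
    rcases hdu with hdu | hdu
    · refine ⟨0, le_rfl, by norm_num, ?_⟩
      rw [hdu]
      have := mul_le_mul_of_nonneg_left hmP (sub_nonneg.2 hs)
      linarith
    · obtain ⟨-, β, hβ0, hβ1, hM⟩ := M_bound h hq0 hq1.le hq'0 hq'1.le hs hdu
      refine ⟨β, hβ0, hβ1, ?_⟩
      have : m ≤ S.F ((q - q' - 1) / 2) + S.F ((q - q' + 1) / 2) := by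
        rw [hm]; exact max_le hadd hF4
      have := mul_le_mul_of_nonneg_left this (mul_nonneg (sub_nonneg.2 hβ1) (sub_nonneg.2 hs))
      nlinarith
  exact steep_core (m := m) (b1 := S.F (-q')) (b2 := S.F q)
    (U1 := q * S.F (q - 1) + q' * S.F (1 - q')) (by linarith)
    (by rw [hW] at hKW; linarith) hβ0 hβ1 hM (by linarith)

theorem steep_nf (h : Crit S Δ) {q q' p P₂ d2 du : ℝ} (hq0 : 0 ≤ q) (hq1 : q < 1)
    (hq'0 : 0 ≤ q') (hq'1 : q' < 1) (hs : 1 ≤ q + q') (hp1 : S.r (-q') ≤ p)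
    (hp2 : p ≤ S.a - S.r q') (h2 : S.F q ≤ P₂)
    (h12 : S.F (q - q') ≤ p + P₂)
    (hd2 : d2 = 0 ∨ d2 ∈ psiSet S Δ P₂ 0 q)
    (hdu : du = 0 ∨ du ∈ psiSet S Δ (p + P₂) (1 - q) (1 - q')) :
    0 + d2 + du + Δ ≤ q * p + q' * P₂ := by
  obtain ⟨m, hm⟩ : ∃ m, m = max (S.F (q - q')) (p + S.F q) := ⟨_, rfl⟩
  obtain ⟨g, hg⟩ : ∃ g, g = m - (p + S.F q) := ⟨_, rfl⟩
  have hmF : S.F (q - q') ≤ m := by rw [hm]; exact le_max_left _ _
  have hmG : p + S.F q ≤ m := by rw [hm]; exact le_max_right _ _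
  have hg0 : 0 ≤ g := by rw [hg]; linarith
  have hmP : m ≤ p + P₂ := by rw [hm]; exact max_le h12 (by linarith)
  have ha := S.a_nonneg
  have hrq' := S.nonneg q' ⟨by linarith, by linarith⟩
  have hrq'' := S.nonneg (-q') ⟨by linarith, by linarith⟩
  have hpF : p ≤ S.F (-q') := by unfold Shape.F; linarith
  -- facts on Δ
  have A1 := h.N (1 - q') q' p (S.F (1 - q')) (by linarith)
  have A2 := h.lam (t := q) hq0 hq1.le
  have A1' : Δ ≤ (1 - q') * p + q' * S.F (1 - q') := by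
    rcases eq_or_lt_of_le hq'0 with e | e
    · -- q' = 0 : impossible
      exfalso
      have h0 := S.pos
      have h1 := S.a_le
      rw [← e] at hp1 hp2
      rw [neg_zero] at hp1
      linarith
    · refine A1 (by linarith) hq'0 hq'1 hp1 hp2 le_rfl ?_
      have := S.add_r (x := -q') (y := 1 - q') (by rw [abs_le]; constructor <;> linarith)
        (by rw [abs_le]; constructor <;> linarith)
      rw [show -q' + (1 - q') = 1 - q' - q' by ring] at this
      unfold Shape.F; linarith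
  have hC2 := h.N q q' p (S.F q + g) hq0 hq1 hq'0 hq'1 hp1 hp2 (by linarith) (by rw [hg]; linarith)
  have hJ := jensen S hq1 hq'1 hs
  obtain ⟨W, hW⟩ : ∃ W, W = (1 - q') * p + (1 - q) * S.F q - Δ + (q + q' - 1) * m :=
    ⟨_, rfl⟩
  have hmg : m = p + S.F q + g := by rw [hg]; ring
  have hsm := mul_le_mul_of_nonneg_left hmF (sub_nonneg.2 hs)
  have hW1 : 0 ≤ S.F 0 - Δ + W := by rw [hW]; linarith
  have hW3 : 0 ≤ (1 - q) * g + W := by rw [hW, hmg]; nlinarith [hC2]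
  have t2 := S.mirror.three_r (q := q') (q' := q) hq'0 hq'1.le hq0 hq1.le
  simp only [Shape.mirror_r] at t2
  rw [show -(q' - q) = q - q' by ring, show -((1 - q) / 2 - 1) = 1 - (1 - q) / 2 by ring] at t2
  have s2 := S.add_F' (x := 1 - (1 - q) / 2) (y := -((1 - q) / 2))
      (by rw [abs_le]; constructor <;> linarith) (by rw [abs_le]; constructor <;> linarith)
  rw [show 1 - (1 - q) / 2 + -((1 - q) / 2) = q by ring] at s2
  have g2 : g ≤ S.F (1 - (1 - q) / 2) + S.F (-((1 - q) / 2)) - S.F q := by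
    rw [hg]
    have : m ≤ S.F (1 - (1 - q) / 2) + S.F (-((1 - q) / 2)) + p := by
      rw [hm]; apply max_le
      · unfold Shape.F; linarith
      · linarith
    linarith
  obtain ⟨k2, k2'⟩ := K_alt' h hq0 hq1 h2 hd2 g2 hW1 hW3
  have hKW : 0 ≤ (1 - q') * (p - p) - 0 + ((1 - q) * (P₂ - S.F q) - d2) + W := by
    rcases k2' with k2' | k2'
    · rw [k2']
      have hsum : g ≤ P₂ - S.F q := by rw [hg]; linarith
      have := mul_le_mul_of_nonneg_left hsum (sub_nonneg.2 hq1.le)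
      linarith
    · linarith
  have hF4 : S.F (-q') + S.F q ≤ S.F ((q - q' - 1) / 2) + S.F ((q - q' + 1) / 2) :=
    S.F4 (by linarith) (by linarith) (by linarith) (by linarith) (by ring)
  have hadd := S.add_F' (x := (q - q' - 1) / 2) (y := (q - q' + 1) / 2)
      (by rw [abs_le]; constructor <;> linarith) (by rw [abs_le]; constructor <;> linarith)
  rw [show (q - q' - 1) / 2 + (q - q' + 1) / 2 = q - q' by ring] at hadd
  obtain ⟨β, hβ0, hβ1, hM⟩ : ∃ β : ℝ, 0 ≤ β ∧ β ≤ 1 ∧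
      β * (q * S.F (q - 1) + q' * S.F (1 - q') - Δ) + (1 - β) * ((q + q' - 1) * m)
        ≤ (q + q' - 1) * (p + P₂) - du := by
    rcases hdu with hdu | hdu
    · refine ⟨0, le_rfl, by norm_num, ?_⟩
      rw [hdu]
      have := mul_le_mul_of_nonneg_left hmP (sub_nonneg.2 hs)
      linarith
    · obtain ⟨-, β, hβ0, hβ1, hM⟩ := M_bound h hq0 hq1.le hq'0 hq'1.le hs hdu
      refine ⟨β, hβ0, hβ1, ?_⟩
      have : m ≤ S.F ((q - q' - 1) / 2) + S.F ((q - q' + 1) / 2) := by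
        rw [hm]; exact max_le hadd (by linarith)
      have := mul_le_mul_of_nonneg_left this (mul_nonneg (sub_nonneg.2 hβ1) (sub_nonneg.2 hs))
      nlinarith
  exact steep_core (m := m) (b1 := p) (b2 := S.F q)
    (U1 := q * S.F (q - 1) + q' * S.F (1 - q')) (by linarith)
    (by rw [hW] at hKW; linarith) hβ0 hβ1 hM (by linarith)

end Pool.Agent.H27.Rog
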