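import Pool.Agent.H27.Rog.Events2

/-!
# The event inequalities, part 3: flat events, walls, assembly
-/

set_option autoImplicit false

namespace Pool.Agent.H27.Rog

variable {S : Shape} {Δ : ℝ}

/-- `psi` sums: to bound `psi + psi + psi` it is enough to bound the elements. -/
theorem psi_sum3 {P₁ s₁ t₁ P₂ s₂ t₂ P₃ s₃ t₃ B : ℝ}
    (h : ∀ d1 d2 d3 : ℝ, (d1 = 0 ∨ d1 ∈ psiSet S Δ P₁ s₁ t₁) → (d2 = 0 ∨ d2 ∈ psiSet S Δ P₂ s₂ t₂) →
      (d3 = 0 ∨ d3 ∈ psiSet S Δ P₃ s₃ t₃) → d1 + d2 + d3 ≤ B) :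
    psi S Δ P₁ s₁ t₁ + psi S Δ P₂ s₂ t₂ + psi S Δ P₃ s₃ t₃ ≤ B := by
  have h1 : ∀ d2 d3 : ℝ, (d2 = 0 ∨ d2 ∈ psiSet S Δ P₂ s₂ t₂) →
      (d3 = 0 ∨ d3 ∈ psiSet S Δ P₃ s₃ t₃) → psi S Δ P₁ s₁ t₁ + d2 + d3 ≤ B := by
    intro d2 d3 h2 h3
    have : psi S Δ P₁ s₁ t₁ ≤ B - d2 - d3 := psi_le
      (by have := h 0 d2 d3 (Or.inl rfl) h2 h3; linarith)
      (fun v hv => by have := h v d2 d3 (Or.inr hv) h2 h3; linarith)
    linarith
  have h2 : ∀ d3 : ℝ, (d3 = 0 ∨ d3 ∈ psiSet S Δ P₃ s₃ t₃) →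
      psi S Δ P₁ s₁ t₁ + psi S Δ P₂ s₂ t₂ + d3 ≤ B := by
    intro d3 h3
    have : psi S Δ P₂ s₂ t₂ ≤ B - psi S Δ P₁ s₁ t₁ - d3 := psi_le
      (by have := h1 0 d3 (Or.inl rfl) h3; linarith)
      (fun v hv => by have := h1 v d3 (Or.inr hv) h3; linarith)
    linarith
  have : psi S Δ P₃ s₃ t₃ ≤ B - psi S Δ P₁ s₁ t₁ - psi S Δ P₂ s₂ t₂ := psi_le
      (by have := h2 0 (Or.inl rfl); linarith)
      (fun v hv => by have := h2 v (Or.inr hv); linarith)
  linarith

theorem Dp_left {P q' : ℝ} (hq1 : q' < 1) : Dp S Δ P q' 0 = psi S Δ P q' 0 := by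
  unfold Dp
  rw [psi_empty (s := 1 - 0) (t := 1 - q') (by linarith), sub_zero]

theorem Dp_right {P q : ℝ} (hq1 : q < 1) : Dp S Δ P 0 q = psi S Δ P 0 q := by
  unfold Dp
  rw [psi_empty (s := 1 - q) (t := 1 - 0) (by linarith), sub_zero]

theorem Dp_steep_ge {P q q' : ℝ} : -psi S Δ P (1 - q) (1 - q') ≤ Dp S Δ P q' q := by
  unfold Dp
  have := psi_nonneg (S := S) (Δ := Δ) P q' q
  linarith

theorem Dp_flat_ge {P q q' : ℝ} (hs : q + q' < 1) : Dp S Δ P q' q = psi S Δ P q' q := by
  unfold Dp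
  rw [psi_empty (s := 1 - q) (t := 1 - q') (by linarith), sub_zero]

/-- value at the dead line -/
theorem psi_dead {P q q' : ℝ} (hq0 : 0 ≤ q) (hq'0 : 0 ≤ q') (hs : q + q' ≤ 1)
    (hP : S.F (-q') + S.F q ≤ P) :
    (1 - q - q') * P + Δ - (1 - q') * S.F (-q') - (1 - q) * S.F q ≤ psi S Δ P q' q := by
  apply le_psi hq'0 (by linarith) hq0 (by linarith)
  refine ⟨0, by linarith, le_rfl, ?_, ?_⟩
  · rw [show (0 : ℝ) - q' = -q' by ring, sub_zero]; exact hP
  · rw [show (0 : ℝ) - q' = -q' by ring, sub_zero]; ring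

theorem mid_ff (h : Crit S Δ) {q q' P₁ P₂ : ℝ} (hq0 : 0 ≤ q) (hq1 : q < 1)
    (hq'0 : 0 ≤ q') (hq'1 : q' < 1) (h1 : S.F (-q') ≤ P₁) (h2 : S.F q ≤ P₂)
    (h12 : S.F (q - q') ≤ P₁ + P₂) :
    Δ ≤ q * P₁ + q' * P₂ + Dp S Δ (P₁ + P₂) q' q - Dp S Δ P₁ q' 0 - Dp S Δ P₂ 0 q := by
  rw [Dp_left hq'1, Dp_right hq1]
  rcases lt_or_ge (q + q') 1 with hs | hs
  · rw [Dp_flat_ge hs]
    have a := psi_dead (S := S) (Δ := Δ) (P := P₁ + P₂) hq0 hq'0 hs.le (by linarith)
    have b := K_nonneg h hq'0 hq'1 h1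
    have c := K_nonneg (S := S.mirror) h.mirror (q' := q) (P := P₂) hq0 hq1 (by simpa using h2)
    rw [psi_mirror, Shape.mirror_F, neg_neg] at c
    linarith
  · have e := Dp_steep_ge (S := S) (Δ := Δ) (P := P₁ + P₂) (q := q) (q' := q')
    have := psi_sum3 (S := S) (Δ := Δ) (P₁ := P₁) (s₁ := q') (t₁ := 0) (P₂ := P₂) (s₂ := 0)
      (t₂ := q) (P₃ := P₁ + P₂) (s₃ := 1 - q) (t₃ := 1 - q') (B := q * P₁ + q' * P₂ - Δ)
      (fun d1 d2 d3 e1 e2 e3 => by
        have := steep_ff h hq0 hq1 hq'0 hq'1 hs h1 h2 h12 e1 e2 e3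
        linarith)
    linarith

/-- facts about near vectors -/
theorem near_half (S : Shape) {q' p : ℝ} (hq'0 : 0 ≤ q') (hq'1 : q' < 1) (hp1 : S.r (-q') ≤ p)
    (hp2 : p ≤ S.a - S.r q') : 1 / 2 ≤ q' := by
  have h1 := S.r_ge (y := q') (by linarith) hq'1.le
  have h2 := S.r_ge (y := -q') (by linarith) (by linarith)
  rw [abs_neg, abs_of_nonneg hq'0] at h2
  rw [abs_of_nonneg hq'0] at h1
  have h3 := S.a_le
  have h4 := S.pos
  by_contra hlt
  push Not at hlt
  nlinarith

/-- `N1` -/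
theorem near_one (h : Crit S Δ) {q' p : ℝ} (hq'0 : 0 ≤ q') (hq'1 : q' < 1) (hp1 : S.r (-q') ≤ p)
    (hp2 : p ≤ S.a - S.r q') : Δ ≤ (1 - q') * p + q' * S.F (1 - q') := by
  have hh := near_half S hq'0 hq'1 hp1 hp2
  refine h.N (1 - q') q' p (S.F (1 - q')) (by linarith) (by linarith) hq'0 hq'1 hp1 hp2 le_rfl ?_
  have := S.add_r (x := -q') (y := 1 - q') (by rw [abs_le]; constructor <;> linarith)
    (by rw [abs_le]; constructor <;> linarith)
  rw [show -q' + (1 - q') = 1 - q' - q' by ring] at this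
  unfold Shape.F; linarith

/-- `F 0 - Δ ≥ (1 - q') (F (-q') - p)` -/
theorem near_two (h : Crit S Δ) {q' p : ℝ} (hq'0 : 0 ≤ q') (hq'1 : q' < 1) (hp1 : S.r (-q') ≤ p)
    (hp2 : p ≤ S.a - S.r q') : (1 - q') * (S.F (-q') - p) ≤ S.F 0 - Δ := by
  have h1 := near_one h hq'0 hq'1 hp1 hp2
  have h2 := S.Fc (u := -q') (w := 1 - q') (t := q') (by linarith) (by linarith) (by linarith)
    (by linarith) hq'0 hq'1.le
  rw [show (1 - q') * -q' + q' * (1 - q') = 0 by ring] at h2
  linarith

/-- flat near-far event: the bound for the debt of the right gap -/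
theorem NK (h : Crit S Δ) {q q' p P₂ v : ℝ} (hq0 : 0 ≤ q) (hs : q + q' < 1)
    (hq'0 : 0 ≤ q') (hp1 : S.r (-q') ≤ p) (hp2 : p ≤ S.a - S.r q')
    (hv : v ∈ psiSet S Δ P₂ 0 q) :
    (1 - q') * (S.F (-q') - p) ≤ (1 - q) * (P₂ - S.F q) - v ∨
      (1 - q') * (P₂ - S.F q) ≤ (1 - q) * (P₂ - S.F q) - v := by
  have hq'1 : q' < 1 := by linarith
  have hh := near_half S hq'0 hq'1 hp1 hp2
  obtain ⟨y, h1, h2, h3, rfl⟩ := hv
  obtain ⟨c, rfl⟩ : ∃ c, y = -c := ⟨-y, by ring⟩
  have hc0 : 0 ≤ c := by linarith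
  rw [show -c - 0 = -c by ring, show q - -c = q + c by ring] at *
  -- X̃ bound
  have hX : Δ ≤ (1 - q - c) * S.F (q + c) + (1 - c) * S.F (-c) - (1 - q - 2 * c) * S.F q := by
    have l := h.mirror.lam (t := c) hc0 (by linarith)
    simp only [Shape.mirror_F] at l
    rw [show -(c - 1) = 1 - c by ring] at l
    have f := S.F3 (u := q) (v := q + c) (w := 1 - c) (by linarith) (by linarith) (by linarith)
      (by linarith)
    linarith
  have hPq : S.F q ≤ P₂ := by
    have := S.add_F' (x := -c) (y := q + c) (by rw [abs_le]; constructor <;> linarith)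
      (by rw [abs_le]; constructor <;> linarith)
    rw [show -c + (q + c) = q by ring] at this
    linarith
  rcases le_total (1 - q') (2 * c) with hc | hc
  · right
    have := mul_nonneg (sub_nonneg.2 hc) (sub_nonneg.2 hPq)
    nlinarith [hX, this]
  · left
    -- chord on [0, (1 - q')/2]
    obtain ⟨θ, hθ⟩ : ∃ θ, θ = (1 - q') / 2 := ⟨_, rfl⟩
    have hq'e : q' = 1 - 2 * θ := by rw [hθ]; ring
    have hθ0 : 0 < θ := by rw [hθ]; linarith
    obtain ⟨t, ht⟩ : ∃ t, t = c / θ := ⟨_, rfl⟩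
    have hce : c = t * θ := by rw [ht]; field_simp
    have ht0 : 0 ≤ t := by rw [ht]; exact div_nonneg hc0 hθ0.le
    have ht1 : t ≤ 1 := by rw [ht, div_le_one hθ0]; linarith
    have c1 : (1 - t) * S.F q + t * S.F (q + θ) ≤ S.F (q + c) := by
      have := S.Fc (u := q) (w := q + θ) (t := t) (by linarith) (by linarith) (by linarith)
        (by linarith) ht0 ht1
      rw [show (1 - t) * q + t * (q + θ) = q + c by rw [hce]; ring] at this
      exact this
    have c2 : (1 - t) * S.F 0 + t * S.F (-θ) ≤ S.F (-c) := by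
      have := S.Fc (u := 0) (w := -θ) (t := t) (by linarith) (by linarith) (by linarith)
        (by linarith) ht0 ht1
      rw [show (1 - t) * 0 + t * -θ = -c by rw [hce]; ring] at this
      exact this
    have c3 : S.F (-θ) + S.F (q + θ) ≤ S.F q + S.F 0 := by
      have := S.F4 (u := -θ) (v := q) (w := 0) (z := q + θ) (by linarith) (by linarith) (by linarith)
        (by linarith) (by ring)
      linarith
    -- X̃ bound at θ
    have hXθ : Δ ≤ (1 - q - θ) * S.F (q + θ) + (1 - θ) * S.F (-θ) - (1 - q - 2 * θ) * S.F q := by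
      have l := h.mirror.lam (t := θ) hθ0.le (by linarith)
      simp only [Shape.mirror_F] at l
      rw [show -(θ - 1) = 1 - θ by ring] at l
      have f := S.F3 (u := q) (v := q + θ) (w := 1 - θ) (by linarith) (by linarith) (by linarith)
        (by linarith)
      linarith
    have hη : S.F (-q') - p ≤ S.F (q + θ) + S.F (-θ) - S.F q := by
      have := S.add_r (x := q + θ) (y := -θ) (by rw [abs_le]; constructor <;> linarith)
        (by rw [abs_le]; constructor <;> linarith)
      rw [show q + θ + -θ = q by ring] at this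
      unfold Shape.F; linarith
    have hF0 := near_two h hq'0 hq'1 hp1 hp2
    generalize S.F (q + c) = A at *
    generalize S.F (-c) = B at *
    generalize S.F (q + θ) = A1 at *
    generalize S.F (-θ) = B1 at *
    generalize S.F 0 = B0 at *
    generalize S.F q = A0 at *
    generalize S.F (-q') = C0 at *
    have m1 : 0 ≤ 2 * c * (P₂ - (B + A)) := mul_nonneg (by linarith) (by linarith)
    have m2 : 0 ≤ (1 - q + c) * (A - ((1 - t) * A0 + t * A1)) :=
      mul_nonneg (by linarith) (by linarith)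
    have m3 : 0 ≤ (1 + c) * (B - ((1 - t) * B0 + t * B1)) :=
      mul_nonneg (by linarith) (by linarith)
    have m4 : 0 ≤ (1 - t) * c * (A0 + B0 - (A1 + B1)) :=
      mul_nonneg (mul_nonneg (by linarith) hc0) (by linarith)
    have m5 : 0 ≤ (1 - t) * (B0 - Δ - (1 - q') * (C0 - p)) := mul_nonneg (by linarith) (by linarith)
    have m6 : 0 ≤ t * ((1 - q - θ) * A1 + (1 - θ) * B1 - (1 - q - 2 * θ) * A0 - Δ) :=
      mul_nonneg ht0 (by linarith)
    have m7 : 0 ≤ t * (2 * θ) * (A1 + B1 - A0 - (C0 - p)) :=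
      mul_nonneg (by positivity) (by linarith)
    clear hXθ hF0 hη c1 c2 c3 h3 hX hPq ht hθ
    subst hce
    subst hq'e
    nlinarith [m1, m2, m3, m4, m5, m6, m7]

theorem mid_nf (h : Crit S Δ) {q q' p P₂ : ℝ} (hq0 : 0 ≤ q) (hq1 : q < 1)
    (hq'0 : 0 ≤ q') (hq'1 : q' < 1) (hp1 : S.r (-q') ≤ p) (hp2 : p ≤ S.a - S.r q')
    (h2 : S.F q ≤ P₂) (h12 : S.F (q - q') ≤ p + P₂) :
    Δ ≤ q * p + q' * P₂ + Dp S Δ (p + P₂) q' q - Dp S Δ p q' 0 - Dp S Δ P₂ 0 q := by
  have hrq' := S.rpos (y := q') (by linarith) (by linarith)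
  have hrq'' := S.rpos (y := -q') (by linarith) (by linarith)
  have hpF : p < S.F (-q') := by unfold Shape.F; linarith
  rw [Dp_left hq'1, Dp_right hq1, psi_near hq'0 hq'1 hpF]
  rcases lt_or_ge (q + q') 1 with hs | hs
  · rw [Dp_flat_ge hs]
    have hh := near_half S hq'0 hq'1 hp1 hp2
    have hN := h.N q q' p (S.F q) hq0 hq1 hq'0 hq'1 hp1 hp2 le_rfl (by
      have := S.add_r (x := -q') (y := q) (by rw [abs_le]; constructor <;> linarith)
        (by rw [abs_le]; constructor <;> linarith)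
      rw [show -q' + q = q - q' by ring] at this
      unfold Shape.F; linarith)
    have hpn := psi_nonneg (S := S) (Δ := Δ) (p + P₂) q' q
    -- bound of the debt of the right gap
    have key : psi S Δ P₂ 0 q ≤ q * p + q' * P₂ + psi S Δ (p + P₂) q' q - Δ := by
      apply psi_le
      · have := mul_nonneg hq'0 (sub_nonneg.2 h2)
        linarith
      · intro v hv
        have hNK := NK h hq0 hs hq'0 hp1 hp2 hv
        rcases le_total (S.F (-q') + S.F q) (p + P₂) with hc | hc
        · have hd := psi_dead (S := S) (Δ := Δ) (P := p + P₂) hq0 hq'0 hs.le hc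
          have : (1 - q') * (S.F (-q') - p) ≤ (1 - q) * (P₂ - S.F q) - v := by
            rcases hNK with hNK | hNK
            · exact hNK
            · have := mul_le_mul_of_nonneg_left (show S.F (-q') - p ≤ P₂ - S.F q by linarith)
                (sub_nonneg.2 hq'1.le)
              linarith
          linarith
        · have : (1 - q') * (P₂ - S.F q) ≤ (1 - q) * (P₂ - S.F q) - v := by
            rcases hNK with hNK | hNK
            · have := mul_le_mul_of_nonneg_left (show P₂ - S.F q ≤ S.F (-q') - p by linarith)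
                (sub_nonneg.2 hq'1.le)
              linarith
            · exact hNK
          have := mul_nonneg hq0 (sub_nonneg.2 h2)
          nlinarith
    linarith
  · have e := Dp_steep_ge (S := S) (Δ := Δ) (P := p + P₂) (q := q) (q' := q')
    have := psi_sum3 (S := S) (Δ := Δ) (P₁ := p) (s₁ := q') (t₁ := 0) (P₂ := P₂) (s₂ := 0)
      (t₂ := q) (P₃ := p + P₂) (s₃ := 1 - q) (t₃ := 1 - q') (B := q * p + q' * P₂ - Δ)
      (fun d1 d2 d3 e1 e2 e3 => by
        have h1 := steep_nf h hq0 hq1 hq'0 hq'1 hs hp1 hp2 h2 h12 e2 e3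
        have h2 : d1 ≤ 0 := by
          rcases e1 with e1 | e1
          · exact e1.le
          · have := le_psi hq'0 hq'1.le le_rfl (by norm_num) e1
            rw [psi_near hq'0 hq'1 hpF] at this
            exact this
        linarith)
    rw [psi_near hq'0 hq'1 hpF] at this
    linarith

theorem mid_fn (h : Crit S Δ) {q q' P₁ p : ℝ} (hq0 : 0 ≤ q) (hq1 : q < 1)
    (hq'0 : 0 ≤ q') (hq'1 : q' < 1) (hp1 : S.r q ≤ p) (hp2 : p ≤ S.a - S.r (-q))
    (h1 : S.F (-q') ≤ P₁) (h12 : S.F (q - q') ≤ P₁ + p) :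
    Δ ≤ q * P₁ + q' * p + Dp S Δ (P₁ + p) q' q - Dp S Δ P₁ q' 0 - Dp S Δ p 0 q := by
  have := mid_nf (S := S.mirror) h.mirror (q := q') (q' := q) (p := p) (P₂ := P₁) hq'0 hq'1 hq0 hq1
    (by simpa using hp1) (by simpa using hp2) (by simpa using h1) (by
      simp only [Shape.mirror_F]
      rw [show -(q' - q) = q - q' by ring, add_comm]; exact h12)
  rw [Dp_mirror, Dp_mirror, Dp_mirror, add_comm p P₁] at this
  linarith

theorem mid_all (h : Crit S Δ) {q q' P₁ P₂ : ℝ} (hq0 : 0 ≤ q) (hq1 : q < 1)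
    (hq'0 : 0 ≤ q') (hq'1 : q' < 1) (h1 : Sep S P₁ (-q')) (h2 : Sep S P₂ q)
    (h12 : Sep S (P₁ + P₂) (q - q')) :
    Δ ≤ q * P₁ + q' * P₂ + Dp S Δ (P₁ + P₂) q' q - Dp S Δ P₁ q' 0 - Dp S Δ P₂ 0 q := by
  have r1 := S.rpos (y := q) (by linarith) (by linarith)
  have r2 := S.rpos (y := -q) (by linarith) (by linarith)
  have r3 := S.rpos (y := q') (by linarith) (by linarith)
  have r4 := S.rpos (y := -q') (by linarith) (by linarith)
  have r5 := S.rpos (y := -(q - q')) (by linarith) (by linarith)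
  have r6 := S.rpos (y := q - q') (by linarith) (by linarith)
  unfold Sep at h1 h2 h12
  rw [neg_neg] at h1
  rcases h1 with h1 | ⟨h1, h1'⟩
  · have h12' : S.F (q - q') ≤ P₁ + P₂ := by
      rcases h12 with h12 | ⟨h12, h12'⟩
      · exact h12
      · exfalso
        have : S.r q ≤ P₂ := by
          rcases h2 with h2 | ⟨h2, h2'⟩
          · unfold Shape.F at h2; linarith [S.a_nonneg]
          · exact h2
        unfold Shape.F at h1
        linarith
    rcases h2 with h2 | ⟨h2, h2'⟩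
    · exact mid_ff h hq0 hq1 hq'0 hq'1 h1 h2 h12'
    · exact mid_fn h hq0 hq1 hq'0 hq'1 h2 h2' h1 h12'
  · rcases h2 with h2 | ⟨h2, h2'⟩
    · have h12' : S.F (q - q') ≤ P₁ + P₂ := by
        rcases h12 with h12 | ⟨h12, h12'⟩
        · exact h12
        · exfalso
          unfold Shape.F at h2
          linarith
      exact mid_nf h hq0 hq1 hq'0 hq'1 h1 h1' h2 h12'
    · exfalso
      have hh := near_half S hq'0 hq'1 h1 h1'
      have hh' := near_half S.mirror (q' := q) (p := P₂) hq0 hq1 (by simpa using h2)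
        (by simpa using h2')
      rcases h12 with h12 | ⟨h12, h12'⟩
      · unfold Shape.F at h12
        have e1 := S.r_ge (y := q - q') (by linarith) (by linarith)
        have e2 := S.r_ge (y := q') (by linarith) (by linarith)
        have e3 := S.r_ge (y := -q) (by linarith) (by linarith)
        rw [abs_neg, abs_of_nonneg hq0] at e3
        rw [abs_of_nonneg hq'0] at e2
        have hp := S.pos
        have ha := S.a_le
        have hab : |q - q'| < 2 - q - q' := by rw [abs_lt]; constructor <;> linarith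
        have : 0 < (2 - q - q' - |q - q'|) * S.r 0 := mul_pos (by linarith) hp
        linarith
      · have e1 := S.r_ge (y := q - q') (by linarith) (by linarith)
        have e2 := S.r_ge (y := -(q - q')) (by linarith) (by linarith)
        rw [abs_neg] at e2
        have hp := S.pos
        have ha := S.a_le
        have hab : |q - q'| < 1 / 2 := by rw [abs_lt]; constructor <;> linarith
        have : 0 < (1 / 2 - |q - q'|) * S.r 0 := mul_pos (by linarith) hp
        linarith

theorem wall_del (h : Crit S Δ) {q' P : ℝ} (hq'0 : 0 ≤ q') (hq'1 : q' < 1) (hP : Sep S P (-q')) :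
    Δ ≤ (1 - q') * P - (1 - q') * S.F (-q') + S.F 0 - Dp S Δ P q' 0 := by
  rw [Dp_left hq'1]
  unfold Sep at hP
  rw [neg_neg] at hP
  rcases hP with hP | ⟨hP, hP'⟩
  · have := K_nonneg h hq'0 hq'1 hP
    have := h.F0
    linarith
  · have r2 := S.rpos (y := -q') (by linarith) (by linarith)
    have r3 := S.rpos (y := q') (by linarith) (by linarith)
    rw [psi_near hq'0 hq'1 (by unfold Shape.F; linarith)]
    have := near_two h hq'0 hq'1 hP hP'
    linarith

theorem wall_ins (h : Crit S Δ) {q' P : ℝ} (hq'0 : 0 < q') (hq'1 : q' ≤ 1)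
    (hP : Sep S P (1 - q')) :
    Δ ≤ (1 - q') * S.F (-q') + q' * P + Dp S Δ P q' 1 := by
  -- mirror: heights 1 - q'
  unfold Dp
  rw [psi_empty (s := q') (t := 1) (by linarith), show (1 : ℝ) - 1 = 0 by ring]
  unfold Sep at hP
  rcases hP with hP | ⟨hP, hP'⟩
  · have c := K_nonneg (S := S.mirror) h.mirror (q' := 1 - q') (P := P) (by linarith) (by linarith)
      (by simpa using hP)
    rw [psi_mirror, Shape.mirror_F, neg_neg] at c
    have l := h.mirror.lam (t := q') hq'0.le hq'1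
    simp only [Shape.mirror_F] at l
    rw [show -(q' - 1) = 1 - q' by ring] at l
    linarith
  · have r2 := S.rpos (y := 1 - q') (by linarith) (by linarith)
    have r3 := S.rpos (y := -(1 - q')) (by linarith) (by linarith)
    have e : psi S Δ P 0 (1 - q') = 0 := by
      rw [← psi_mirror]
      apply psi_near (by linarith) (by linarith)
      simp only [Shape.mirror_F, neg_neg]
      unfold Shape.F; linarith
    rw [e]
    have := near_one (S := S.mirror) h.mirror (q' := 1 - q') (p := P) (by linarith) (by linarith)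
      (by simpa using hP) (by simpa using hP')
    simp only [Shape.mirror_F] at this
    rw [show -(1 - (1 - q')) = -q' by ring, show 1 - (1 - q') = q' by ring] at this
    linarith

theorem wall_mono (S : Shape) {q c : ℝ} (hq1 : q ≤ 1) (hc : 0 ≤ c) (hcq : c ≤ q) :
    (1 - (q - c)) * S.F (q - c) - (1 - q) * S.F q ≤ 2 * c * S.F (q - c) := by
  have h1 := S.F3 (u := q - c) (v := q) (w := 1) (by linarith) (by linarith) hq1 le_rfl
  have h2 := S.Fnn (y := 1) (by norm_num) le_rfl
  have h3 := S.Fnn (y := q - c) (by linarith) (by linarith)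
  rcases eq_or_lt_of_le (show 0 ≤ 1 - (q - c) by linarith) with e | e
  · have : c = 0 := by linarith
    subst this
    simp
  · -- (1-q) F(q-c) ≤ (1-(q-c)) F q
    have h4 : (1 - q) * S.F (q - c) ≤ (1 - (q - c)) * S.F q := by
      have := mul_nonneg hc h2
      linarith
    have h5 := mul_le_mul_of_nonneg_left h4 (sub_nonneg.2 hq1)
    have h6 : 0 ≤ c * c * S.F (q - c) := mul_nonneg (mul_nonneg hc hc) h3
    have : (1 - (q - c)) * ((1 - (q - c)) * S.F (q - c) - (1 - q) * S.F q) ≤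
        (1 - (q - c)) * (2 * c * S.F (q - c)) := by
      nlinarith [h5, h6]
    exact le_of_mul_le_mul_left this e

theorem eventIneq (S : Shape) (Δ : ℝ) (h : Crit S Δ) : EventIneq S Δ where
  pos := h.pos
  F0 := h.F0
  anti := by
    intro P s t
    unfold Dp
    rw [show 1 - (1 - s) = s by ring, show 1 - (1 - t) = t by ring]
    ring
  mono := by
    intro P s t c hs ht hc hcs hct
    unfold Dp
    have a := psi_mono (S := S) (Δ := Δ) (P := P) hs ht hc hcs hct
    have b := psi_mono (S := S) (Δ := Δ) (P := P) (s := 1 - (t - c)) (t := 1 - (s - c)) (c := c)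
      (by linarith) (by linarith) hc (by linarith) (by linarith)
    rw [show 1 - (t - c) - c = 1 - t by ring, show 1 - (s - c) - c = 1 - s by ring] at b
    linarith
  wallL_mono := fun q c h1 h2 h3 => wall_mono S h1 h2 h3
  wallR_mono := by
    intro q c h1 h2 h3
    have := wall_mono S.mirror h1 h2 h3
    simpa using this
  mid := fun q q' P₁ P₂ h1 h2 h3 h4 h5 h6 h7 => mid_all h h1 h2 h3 h4 h5 h6 h7
  wallL_del := by
    intro q P h1 h2 h3
    have := wall_del (S := S.mirror) h.mirror (q' := q) (P := P) h1 h2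
      (by rw [sep_mirror, neg_neg]; exact h3)
    rw [Dp_mirror] at this
    simpa using this
  wallL_ins := by
    intro q P h1 h2 h3
    have := wall_ins (S := S.mirror) h.mirror (q' := q) (P := P) h1 h2
      (by rw [sep_mirror, show -(1 - q) = q - 1 by ring]; exact h3)
    rw [Dp_mirror] at this
    simpa using this
  wallR_del := fun q' P h1 h2 h3 => wall_del h h1 h2 h3
  wallR_ins := fun q' P h1 h2 h3 => wall_ins h h1 h2 h3

end Pool.Agent.H27.Rog
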