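import Pool.Agent.H27.Rog.Defs

set_option autoImplicit false

open scoped Pointwise

namespace Pool.Agent.H27.Rog

namespace Geo

/-- the interior of the difference body -/
theorem mem_interior_sub {K : Set (ℝ × ℝ)} (hconv : Convex ℝ K) (hint : (interior K).Nonempty)
    {p : ℝ × ℝ} : p ∈ interior (K - K) ↔ ∃ a ∈ interior K, ∃ b ∈ interior K, a - b = p := by
  constructor
  · intro hp
    -- some multiple `c • p`, `c > 1`, is in `K - K`
    have hcont : Continuous (fun c : ℝ => c • p) := by fun_prop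
    have hopen : IsOpen ((fun c : ℝ => c • p) ⁻¹' interior (K - K)) :=
      isOpen_interior.preimage hcont
    have h1 : (1 : ℝ) ∈ ((fun c : ℝ => c • p) ⁻¹' interior (K - K)) := by simpa using hp
    obtain ⟨ε, hε, hball⟩ := Metric.isOpen_iff.mp hopen 1 h1
    have h2 : (1 + ε / 2) • p ∈ interior (K - K) := by
      apply hball
      rw [Metric.mem_ball, Real.dist_eq]
      rw [abs_of_pos (by linarith)]; linarith
    have h3 := interior_subset h2
    rw [Set.mem_sub] at h3
    obtain ⟨k1, hk1, k2, hk2, hk⟩ := h3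
    obtain ⟨x0, hx0⟩ := hint
    set c := 1 + ε / 2 with hc
    have hc0 : 0 < c := by linarith
    have hc1 : 1 < c := by linarith
    have hinv : 0 < 1 / c := by positivity
    have hinv1 : 0 < 1 - 1 / c := by
      rw [sub_pos, div_lt_one hc0]; exact hc1
    refine ⟨(1 - 1 / c) • x0 + (1 / c) • k1, ?_, (1 - 1 / c) • x0 + (1 / c) • k2, ?_, ?_⟩
    · exact hconv.combo_interior_self_mem_interior hx0 hk1 hinv1 hinv.le (by ring)
    · exact hconv.combo_interior_self_mem_interior hx0 hk2 hinv1 hinv.le (by ring)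
    · have : (1 - 1 / c) • x0 + (1 / c) • k1 - ((1 - 1 / c) • x0 + (1 / c) • k2)
          = (1 / c) • (k1 - k2) := by
        rw [smul_sub]; abel
      rw [this, hk, smul_smul]
      rw [one_div, inv_mul_cancel₀ hc0.ne', one_smul]
  · rintro ⟨a, ha, b, hb, rfl⟩
    have : interior K - interior K ⊆ interior (K - K) :=
      interior_maximal (Set.sub_subset_sub interior_subset interior_subset)
        (isOpen_interior.sub_right)
    exact this (Set.sub_mem_sub ha hb)

theorem interior_translate (K : Set (ℝ × ℝ)) (s : ℝ × ℝ) :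
    interior ((fun z => z + s) '' K) = (fun z => z + s) '' interior K := by
  have := (Homeomorph.addRight s).image_interior K
  exact this.symm

theorem disjoint_translates {K : Set (ℝ × ℝ)} (hconv : Convex ℝ K) (hint : (interior K).Nonempty)
    (s t : ℝ × ℝ) :
    Disjoint (interior ((fun z => z + s) '' K)) (interior ((fun z => z + t) '' K)) ↔
      t - s ∉ interior (K - K) := by
  rw [interior_translate, interior_translate, Set.disjoint_left, mem_interior_sub hconv hint]
  constructor
  · rintro h ⟨a, ha, b, hb, hab⟩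
    apply h ⟨a, ha, rfl⟩
    refine ⟨b, hb, ?_⟩
    simp only
    have : t = a - b + s := by rw [hab]; abel
    rw [this]; abel
  · rintro h z ⟨a, ha, rfl⟩ ⟨b, hb, hb2⟩
    apply h
    refine ⟨a, ha, b, hb, ?_⟩
    simp only at hb2
    have : t = a + s - b := by rw [← hb2]; abel
    rw [this]; abel

/-- a nonempty open subset of a union of two closed sets -/
theorem open_union {X : Type*} [TopologicalSpace X] {U K1 K2 : Set X} (hU : IsOpen U)
    (hne : U.Nonempty) (hK1 : IsClosed K1) (hsub : U ⊆ K1 ∪ K2) :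
    ∃ U' ⊆ U, IsOpen U' ∧ U'.Nonempty ∧ (U' ⊆ interior K1 ∨ U' ⊆ interior K2) := by
  by_cases h : U ⊆ K1
  · exact ⟨U, Set.Subset.rfl, hU, hne, Or.inl (interior_maximal h hU)⟩
  · obtain ⟨x, hx, hx1⟩ := Set.not_subset.mp h
    have hop : IsOpen (U \ K1) := hU.sdiff hK1
    refine ⟨U \ K1, Set.sdiff_subset, hop, ⟨x, hx, hx1⟩, Or.inr (interior_maximal ?_ hop)⟩
    rintro y ⟨hy, hy1⟩
    rcases hsub hy with h2 | h2
    · exact absurd h2 hy1
    · exact h2

theorem image_union_translate (K : Set (ℝ × ℝ)) (v s : ℝ × ℝ) :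
    (fun z => z + s) '' (K ∪ ((fun z => z + v) '' K)) =
      ((fun z => z + s) '' K) ∪ ((fun z => z + (v + s)) '' K) := by
  rw [Set.image_union, Set.image_image]
  simp only [add_assoc]

theorem disjoint_unions {K : Set (ℝ × ℝ)} (hconv : Convex ℝ K) (hcomp : IsCompact K)
    (hint : (interior K).Nonempty) (v s t : ℝ × ℝ) :
    Disjoint (interior ((fun z => z + s) '' (K ∪ ((fun z => z + v) '' K))))
      (interior ((fun z => z + t) '' (K ∪ ((fun z => z + v) '' K)))) ↔
      (t - s ∉ interior (K - K) ∧ t - s - v ∉ interior (K - K) ∧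
        t - s + v ∉ interior (K - K)) := by
  have hcl : ∀ c : ℝ × ℝ, IsClosed ((fun z => z + c) '' K) := fun c =>
    (hcomp.image (by fun_prop)).isClosed
  have e1 := disjoint_translates hconv hint s t
  have e2 := disjoint_translates hconv hint (v + s) t
  have e3 := disjoint_translates hconv hint s (v + t)
  have e4 := disjoint_translates hconv hint (v + s) (v + t)
  have r2 : t - (v + s) = t - s - v := by abel
  have r3 : v + t - s = t - s + v := by abel
  have r4 : v + t - (v + s) = t - s := by abel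
  rw [r2] at e2
  rw [r3] at e3
  rw [r4] at e4
  rw [← e1, ← e2, ← e3, image_union_translate, image_union_translate]
  constructor
  · intro h
    refine ⟨?_, ?_, ?_⟩
    · exact h.mono (interior_mono Set.subset_union_left) (interior_mono Set.subset_union_left)
    · exact h.mono (interior_mono Set.subset_union_right) (interior_mono Set.subset_union_left)
    · exact h.mono (interior_mono Set.subset_union_left) (interior_mono Set.subset_union_right)
  · rintro ⟨h1, h2, h3⟩
    have h4 := e4.2 (e1.1 h1)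
    by_contra hcon
    rw [Set.not_disjoint_iff_nonempty_inter] at hcon
    obtain ⟨U1, hU1, hU1o, hU1n, hU1c⟩ := open_union (isOpen_interior.inter isOpen_interior) hcon
      (hcl s) (Set.inter_subset_left.trans interior_subset)
    obtain ⟨U2, hU2, hU2o, hU2n, hU2c⟩ := open_union hU1o hU1n
      (hcl t) ((hU1.trans Set.inter_subset_right).trans interior_subset)
    obtain ⟨x, hx⟩ := hU2n
    rcases hU1c with hA | hA <;> rcases hU2c with hB | hB
    · exact Set.disjoint_left.mp h1 (hA (hU2 hx)) (hB hx)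
    · exact Set.disjoint_left.mp h3 (hA (hU2 hx)) (hB hx)
    · exact Set.disjoint_left.mp h2 (hA (hU2 hx)) (hB hx)
    · exact Set.disjoint_left.mp h4 (hA (hU2 hx)) (hB hx)

/-- The normal form of a symmetric convex body `C` containing `a • e`. -/
theorem normal_form (C : Set (ℝ × ℝ)) (hC : Convex ℝ C) (hCc : IsCompact C)
    (hsymm : ∀ z ∈ C, -z ∈ C) (h0 : (0 : ℝ × ℝ) ∈ interior C) (e : ℝ × ℝ) (he : e ≠ 0)
    (a : ℝ) (ha : 0 ≤ a) (hae : a • e ∈ C) :
    ∃ (S : Shape) (w : ℝ × ℝ), S.a = a ∧ e.1 * w.2 - e.2 * w.1 ≠ 0 ∧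
      (∃ Fm : ℝ, ∀ y ∈ Set.Icc (-1 : ℝ) 1, S.F y ≤ Fm) ∧
      ∀ x y : ℝ, x • e + y • w ∈ interior C ↔ (|y| < 1 ∧ -S.r (-y) < x ∧ x < S.r y) := by
  -- maximiser of the functional
  have hlc : Continuous (fun z : ℝ × ℝ => e.1 * z.2 - e.2 * z.1) := by fun_prop
  have h0C : (0 : ℝ × ℝ) ∈ C := interior_subset h0
  obtain ⟨w, hwC, hwmax⟩ := hCc.exists_isMaxOn ⟨0, h0C⟩ hlc.continuousOn
  -- small ball
  obtain ⟨ε, hε, hball⟩ := Metric.isOpen_iff.mp isOpen_interior 0 h0
  have hbig : ∀ z : ℝ × ℝ, ∃ c : ℝ, 0 < c ∧ c • z ∈ interior C := by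
    intro z
    refine ⟨ε / (2 * (‖z‖ + 1)), by positivity, hball ?_⟩
    rw [mem_ball_zero_iff, norm_smul, Real.norm_eq_abs, abs_of_pos (by positivity)]
    have hz := norm_nonneg z
    rw [div_mul_eq_mul_div, div_lt_iff₀ (by positivity)]
    nlinarith
  have hNpos : 0 < e.1 * w.2 - e.2 * w.1 := by
    obtain ⟨c, hc, hcz⟩ := hbig (-e.2, e.1)
    have h1 := hwmax (interior_subset hcz)
    simp only [Set.mem_ofPred_eq, Prod.smul_mk, smul_eq_mul] at h1
    have h2 : 0 < e.1 ^ 2 + e.2 ^ 2 := by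
      have : e.1 ≠ 0 ∨ e.2 ≠ 0 := by
        by_contra hcon
        push Not at hcon
        exact he (Prod.ext hcon.1 hcon.2)
      rcases this with h | h
      · have := pow_pos (abs_pos.2 h) 2; rw [sq_abs] at this; positivity
      · have := pow_pos (abs_pos.2 h) 2; rw [sq_abs] at this; positivity
    have h3 := mul_pos hc h2
    nlinarith
  set N := e.1 * w.2 - e.2 * w.1 with hN
  have hlw : ∀ x y : ℝ, e.1 * (x • e + y • w).2 - e.2 * (x • e + y • w).1 = y * N := by
    intro x y
    simp only [Prod.snd_add, Prod.smul_snd, smul_eq_mul, Prod.fst_add, Prod.smul_fst, hN]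
    ring
  have hy_le : ∀ x y : ℝ, x • e + y • w ∈ C → |y| ≤ 1 := by
    intro x y h
    have h1 := hwmax h
    have h2 := hwmax (hsymm _ h)
    simp only [Set.mem_ofPred_eq] at h1 h2
    have h3 := hlw x y
    have h4 : e.1 * (-(x • e + y • w)).2 - e.2 * (-(x • e + y • w)).1 = -(y * N) := by
      rw [← h3]; simp only [Prod.snd_neg, Prod.fst_neg]; ring
    rw [h3] at h1
    rw [h4] at h2
    rw [abs_le]
    constructor <;> nlinarith
  -- y • w ∈ C
  have hyw : ∀ y : ℝ, |y| ≤ 1 → y • w ∈ C := by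
    intro y hy
    obtain ⟨h1, h2⟩ := abs_le.mp hy
    have := hC (hsymm w hwC) hwC (a := (1 - y) / 2) (b := (1 + y) / 2) (by linarith) (by linarith)
      (by ring)
    have e1 : ((1 - y) / 2) • (-w) + ((1 + y) / 2) • w = y • w := by
      rw [smul_neg, ← neg_smul, ← add_smul]; ring_nf
    rwa [e1] at this
  have hyw' : ∀ y : ℝ, |y| < 1 → y • w ∈ interior C := by
    intro y hy
    rcases le_or_gt 0 y with h | h
    · rw [abs_of_nonneg h] at hy
      have := hC.combo_interior_self_mem_interior h0 hwC (a := 1 - y) (b := y) (by linarith) h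
        (by ring)
      simpa using this
    · rw [abs_of_neg h] at hy
      have := hC.combo_interior_self_mem_interior h0 (hsymm w hwC) (a := 1 + y) (b := -y)
        (by linarith) (by linarith) (by ring)
      simpa using this
  -- the slice
  set Sl : ℝ → Set ℝ := fun y => {x | x • e + y • w ∈ C} with hSl
  have hSlclosed : ∀ y, IsClosed (Sl y) := fun y =>
    hCc.isClosed.preimage (f := fun x : ℝ => x • e + y • w) (by fun_prop)
  obtain ⟨M, hM⟩ := hCc.isBounded.exists_norm_le
  -- bound on x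
  have hxb : ∀ x y : ℝ, x • e + y • w ∈ C → |x| ≤ 2 * M / ‖e‖ := by
    intro x y h
    have h1 : |y| ≤ 1 := hy_le x y h
    have h2 := hM _ h
    have h3 := hM _ (hyw y h1)
    have h4 : ‖x • e‖ ≤ 2 * M := by
      have : x • e = (x • e + y • w) - y • w := by abel
      rw [this]
      exact (norm_sub_le _ _).trans (by linarith)
    rw [norm_smul, Real.norm_eq_abs] at h4
    rw [le_div_iff₀ (norm_pos_iff.2 he)]
    exact h4
  have hbdd : ∀ y, BddAbove (Sl y) := fun y => ⟨2 * M / ‖e‖, fun x hx => (le_abs_self x).trans (hxb x y hx)⟩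
  have hSlc : ∀ y, IsCompact (Sl y) := fun y =>
    Metric.isCompact_of_isClosed_isBounded (hSlclosed y)
      ((Metric.isBounded_closedBall (x := (0 : ℝ)) (r := 2 * M / ‖e‖)).subset (fun x hx => by
        rw [mem_closedBall_zero_iff, Real.norm_eq_abs]; exact hxb x y hx))
  have h0Sl : ∀ y, |y| ≤ 1 → (0 : ℝ) ∈ Sl y := fun y hy => by
    simp only [hSl, Set.mem_ofPred_eq, zero_smul, zero_add]; exact hyw y hy
  set r : ℝ → ℝ := fun y => sSup (Sl y) with hr
  have hrmem : ∀ y, |y| ≤ 1 → r y ∈ Sl y := fun y hy => (hSlc y).sSup_mem ⟨0, h0Sl y hy⟩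
  have hler : ∀ y x, x ∈ Sl y → x ≤ r y := fun y x hx => le_csSup (hbdd y) hx
  have habs : ∀ y ∈ Set.Icc (-1 : ℝ) 1, |y| ≤ 1 := fun y hy => abs_le.2 ⟨hy.1, hy.2⟩
  have hconc : ConcaveOn ℝ (Set.Icc (-1 : ℝ) 1) r := by
    refine ⟨convex_Icc _ _, ?_⟩
    intro x hx y hy α β hα hβ hαβ
    apply hler
    have h1 := hrmem x (habs x hx)
    have h2 := hrmem y (habs y hy)
    have h3 := hC h1 h2 hα hβ hαβ
    simp only [hSl, Set.mem_ofPred_eq]
    convert h3 using 1
    simp only [smul_eq_mul, smul_add, smul_smul, add_smul]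
    abel
  have hrpos : 0 < r 0 := by
    obtain ⟨c, hc, hcz⟩ := hbig e
    have : c ∈ Sl 0 := by
      simp only [hSl, Set.mem_ofPred_eq, zero_smul, add_zero]; exact interior_subset hcz
    exact hc.trans_le (hler 0 c this)
  have har : a ≤ r 0 := hler 0 a (by
    simp only [hSl, Set.mem_ofPred_eq, zero_smul, add_zero]; exact hae)
  let S : Shape :=
    { r := r
      a := a
      conc := hconc
      nonneg := fun y hy => hler y 0 (h0Sl y (habs y hy))
      pos := hrpos
      a_nonneg := ha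
      a_le := har }
  refine ⟨S, w, rfl, hNpos.ne', ⟨2 * M / ‖e‖ + a, ?_⟩, ?_⟩
  · intro y hy
    have h1 := hxb (r y) y (hrmem y (habs y hy))
    have h2 := le_abs_self (r y)
    change r y + a ≤ _
    linarith
  · intro x y
    change _ ↔ (|y| < 1 ∧ -r (-y) < x ∧ x < r y)
    constructor
    · intro h
      -- perturbations
      have hcx : Continuous (fun u : ℝ => (x + u) • e + y • w) := by fun_prop
      have hcy : Continuous (fun u : ℝ => x • e + (y + u) • w) := by fun_prop
      obtain ⟨δ, hδ, hb1⟩ := Metric.isOpen_iff.mp (isOpen_interior.preimage hcx) 0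
        (by simpa using h : (0 : ℝ) ∈ _)
      obtain ⟨δ', hδ', hb2⟩ := Metric.isOpen_iff.mp (isOpen_interior.preimage hcy) 0
        (by simpa using h : (0 : ℝ) ∈ _)
      have m1 : (δ / 2) ∈ Metric.ball (0 : ℝ) δ := by
        rw [mem_ball_zero_iff, Real.norm_eq_abs, abs_of_pos (by linarith)]; linarith
      have m2 : (-(δ / 2)) ∈ Metric.ball (0 : ℝ) δ := by
        rw [mem_ball_zero_iff, Real.norm_eq_abs, abs_neg, abs_of_pos (by linarith)]; linarith
      have m3 : (δ' / 2) ∈ Metric.ball (0 : ℝ) δ' := by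
        rw [mem_ball_zero_iff, Real.norm_eq_abs, abs_of_pos (by linarith)]; linarith
      have m4 : (-(δ' / 2)) ∈ Metric.ball (0 : ℝ) δ' := by
        rw [mem_ball_zero_iff, Real.norm_eq_abs, abs_neg, abs_of_pos (by linarith)]; linarith
      have p1 : (x + δ / 2) • e + y • w ∈ C := interior_subset (hb1 m1)
      have p2 : (x + -(δ / 2)) • e + y • w ∈ C := interior_subset (hb1 m2)
      have p3 : x • e + (y + δ' / 2) • w ∈ C := interior_subset (hb2 m3)
      have p4 : x • e + (y + -(δ' / 2)) • w ∈ C := interior_subset (hb2 m4)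
      refine ⟨?_, ?_, ?_⟩
      · have q3 := (abs_le.mp (hy_le _ _ p3)).2
        have q4 := (abs_le.mp (hy_le _ _ p4)).1
        rw [abs_lt]; constructor <;> linarith
      · have p5 := hsymm _ p2
        have e5 : -((x + -(δ / 2)) • e + y • w) = (-x + δ / 2) • e + (-y) • w := by
          simp only [add_smul, neg_smul, neg_add, neg_neg]
        rw [e5] at p5
        have := hler (-y) (-x + δ / 2) p5
        linarith
      · have := hler y (x + δ / 2) p1
        linarith
    · rintro ⟨hy, hx1, hx2⟩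
      have hq := hyw' y hy
      rcases le_or_gt 0 x with h | h
      · have hr0 : 0 < r y := h.trans_lt hx2
        have hm := hrmem y hy.le
        have := hC.combo_interior_self_mem_interior hq hm (a := 1 - x / r y) (b := x / r y)
          (by rw [sub_pos, div_lt_one hr0]; exact hx2) (by positivity) (by ring)
        have e1 : (1 - x / r y) • (y • w) + (x / r y) • (r y • e + y • w) = x • e + y • w := by
          rw [smul_add, smul_smul (x / r y) (r y), div_mul_cancel₀ _ hr0.ne', sub_smul, one_smul]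
          abel
        rwa [e1] at this
      · have hr0 : 0 < r (-y) := by linarith
        have hm' := hrmem (-y) (by rw [abs_neg]; exact hy.le)
        have hm := hsymm _ hm'
        have e0 : -(r (-y) • e + (-y) • w) = (-r (-y)) • e + y • w := by
          rw [neg_add, neg_smul, neg_smul, neg_neg]
        rw [e0] at hm
        have := hC.combo_interior_self_mem_interior hq hm (a := 1 - (-x) / r (-y))
          (b := (-x) / r (-y))
          (by rw [sub_pos, div_lt_one hr0]; linarith) (div_nonneg (by linarith) hr0.le) (by ring)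
        have e1 : (1 - (-x) / r (-y)) • (y • w) + ((-x) / r (-y)) • ((-r (-y)) • e + y • w)
            = x • e + y • w := by
          rw [smul_add, smul_smul ((-x) / r (-y)) (-r (-y)), mul_neg, div_mul_cancel₀ _ hr0.ne',
            sub_smul, one_smul, neg_neg]
          abel
        rwa [e1] at this

end Geo

/-- job D -/
theorem geometry (K : Set (ℝ × ℝ)) (v : ℝ × ℝ) (hconv : Convex ℝ K) (hcomp : IsCompact K)
    (hint : (interior K).Nonempty) (hv : (K ∩ ((fun x => x + v) '' K)).Nonempty) :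
    ∃ (S : Shape) (e w : ℝ × ℝ), e.1 * w.2 - e.2 * w.1 ≠ 0 ∧
      (∃ Fm : ℝ, ∀ y ∈ Set.Icc (-1 : ℝ) 1, S.F y ≤ Fm) ∧
      ∀ s t : ℝ × ℝ, ∀ x y : ℝ, t - s = x • e + y • w →
        (Disjoint (interior ((fun z => z + s) '' (K ∪ ((fun z => z + v) '' K))))
            (interior ((fun z => z + t) '' (K ∪ ((fun z => z + v) '' K)))) ↔ Out S x y) := by
  have hC : Convex ℝ (K - K) := hconv.sub hconv
  have hCc : IsCompact (K - K) := by
    have h1 := (hcomp.prod hcomp).image (f := fun p : (ℝ × ℝ) × (ℝ × ℝ) => p.1 - p.2) (by fun_prop)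
    have h2 : (fun p : (ℝ × ℝ) × (ℝ × ℝ) => p.1 - p.2) '' (K ×ˢ K) = K - K := by
      ext z
      constructor
      · rintro ⟨⟨a, b⟩, ⟨ha, hb⟩, rfl⟩
        exact Set.sub_mem_sub ha hb
      · intro hz
        obtain ⟨a, ha, b, hb, rfl⟩ := Set.mem_sub.mp hz
        exact ⟨(a, b), ⟨ha, hb⟩, rfl⟩
    rwa [h2] at h1
  have hsymm : ∀ z ∈ K - K, -z ∈ K - K := by
    rintro z hz
    obtain ⟨a, ha, b, hb, rfl⟩ := Set.mem_sub.mp hz
    rw [neg_sub]
    exact Set.sub_mem_sub hb ha
  have h0 : (0 : ℝ × ℝ) ∈ interior (K - K) := by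
    obtain ⟨x0, hx0⟩ := hint
    exact (Geo.mem_interior_sub hconv ⟨x0, hx0⟩).2 ⟨x0, hx0, x0, hx0, sub_self _⟩
  have hvC : v ∈ K - K := by
    obtain ⟨x, hx, y, hy, hxy⟩ := hv
    have : v = x - y := by rw [← hxy]; simp
    rw [this]
    exact Set.sub_mem_sub hx hy
  obtain ⟨e, a, he, ha, hae⟩ : ∃ (e : ℝ × ℝ) (a : ℝ), e ≠ 0 ∧ 0 ≤ a ∧ a • e = v := by
    by_cases hv0 : v = 0
    · exact ⟨(1, 0), 0, by simp, le_rfl, by simp [hv0]⟩
    · exact ⟨v, 1, hv0, zero_le_one, one_smul _ _⟩
  obtain ⟨S, w, hSa, hdet, hFm, hS⟩ := Geo.normal_form (K - K) hC hCc hsymm h0 e he a ha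
    (by rw [hae]; exact hvC)
  refine ⟨S, e, w, hdet, hFm, ?_⟩
  intro s t x y hst
  rw [Geo.disjoint_unions hconv hcomp hint v s t]
  have e1 : t - s - v = (x - a) • e + y • w := by
    rw [hst, ← hae, sub_smul]; abel
  have e2 : t - s + v = (x + a) • e + y • w := by
    rw [hst, ← hae, add_smul]; abel
  rw [e1, e2, hst, hS, hS, hS]
  unfold Out
  rw [hSa]
  constructor
  · rintro ⟨h1, h2, h3⟩ hy k hk ⟨hk1, hk2⟩
    rcases hk with rfl | rfl | rfl
    · exact h3 ⟨hy, by linarith, by linarith⟩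
    · exact h1 ⟨hy, by linarith, by linarith⟩
    · exact h2 ⟨hy, by linarith, by linarith⟩
  · intro h
    refine ⟨?_, ?_, ?_⟩
    · rintro ⟨hy, h1, h2⟩
      exact h hy 0 (by norm_num) ⟨by linarith, by linarith⟩
    · rintro ⟨hy, h1, h2⟩
      exact h hy 1 (by norm_num) ⟨by linarith, by linarith⟩
    · rintro ⟨hy, h1, h2⟩
      exact h hy (-1) (by norm_num) ⟨by linarith, by linarith⟩

end Pool.Agent.H27.Rog
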