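import Pool.Agent.H27.Rog.Defs

set_option autoImplicit false

namespace Pool.Agent.H27.Rog

/-! ## Concavity inequalities -/

/-- three point form of concavity on `[-1, 1]` -/
theorem conc3 {G : ℝ → ℝ} (hG : ConcaveOn ℝ (Set.Icc (-1 : ℝ) 1) G) {x y z : ℝ} (hx : -1 ≤ x)
    (hxy : x ≤ y) (hyz : y ≤ z) (hz : z ≤ 1) :
    (z - y) * G x + (y - x) * G z ≤ (z - x) * G y := by
  rcases eq_or_lt_of_le (hxy.trans hyz) with h | h
  · have h1 : y = x := le_antisymm (by linarith) hxy
    have h2 : z = x := h.symm
    subst h1; subst h2; simp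
  · have hpos : 0 < z - x := by linarith
    have hxm : x ∈ Set.Icc (-1 : ℝ) 1 := ⟨hx, by linarith⟩
    have hzm : z ∈ Set.Icc (-1 : ℝ) 1 := ⟨by linarith, hz⟩
    have hA : 0 ≤ (z - y) / (z - x) := div_nonneg (by linarith) hpos.le
    have hB : 0 ≤ (y - x) / (z - x) := div_nonneg (by linarith) hpos.le
    have hAB : (z - y) / (z - x) + (y - x) / (z - x) = 1 := by field_simp; ring
    have key := hG.2 hxm hzm hA hB hAB
    have e : ((z - y) / (z - x)) • x + ((y - x) / (z - x)) • z = y := by
      simp only [smul_eq_mul]; field_simp; ring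
    rw [e] at key
    simp only [smul_eq_mul] at key
    have := mul_le_mul_of_nonneg_left key hpos.le
    have e2 : (z - x) * ((z - y) / (z - x) * G x + (y - x) / (z - x) * G z)
        = (z - y) * G x + (y - x) * G z := by field_simp
    rw [e2] at this
    exact this

/-- subadditivity on `[0, 1]` with the gain `G 0` -/
theorem conc_sub {G : ℝ → ℝ} (hG : ConcaveOn ℝ (Set.Icc (-1 : ℝ) 1) G) {x y : ℝ} (hx : 0 ≤ x)
    (hy : 0 ≤ y) (hxy : x + y ≤ 1) : G (x + y) + G 0 ≤ G x + G y := by
  rcases eq_or_lt_of_le (add_nonneg hx hy) with h | h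
  · have h1 : x = 0 := by linarith
    have h2 : y = 0 := by linarith
    subst h1; subst h2; simp
  · have a1 := conc3 hG (x := 0) (y := x) (z := x + y) (by norm_num) hx (by linarith) hxy
    have a2 := conc3 hG (x := 0) (y := y) (z := x + y) (by norm_num) hy (by linarith) hxy
    have : (x + y) * (G (x + y) + G 0) ≤ (x + y) * (G x + G y) := by nlinarith
    exact le_of_mul_le_mul_left this h

theorem conc_mirror {G : ℝ → ℝ} (hG : ConcaveOn ℝ (Set.Icc (-1 : ℝ) 1) G) :
    ConcaveOn ℝ (Set.Icc (-1 : ℝ) 1) (fun y => G (-y)) := by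
  refine ⟨convex_Icc _ _, ?_⟩
  intro x hx y hy a b ha hb hab
  have hx' : -x ∈ Set.Icc (-1 : ℝ) 1 := ⟨by linarith [hx.2], by linarith [hx.1]⟩
  have hy' : -y ∈ Set.Icc (-1 : ℝ) 1 := ⟨by linarith [hy.2], by linarith [hy.1]⟩
  have h := hG.2 hx' hy' ha hb hab
  have e : a • (-x) + b • (-y) = -(a • x + b • y) := by simp only [smul_eq_mul]; ring
  rw [e] at h
  exact h

/-- `G (j q - i q') ≤ j G q` for `i + 1 ≤ j`. -/
theorem conc_ij {G : ℝ → ℝ} (hG : ConcaveOn ℝ (Set.Icc (-1 : ℝ) 1) G)
    (hG0 : ∀ y ∈ Set.Icc (-1 : ℝ) 1, 0 ≤ G y) {q q' i j : ℝ} (hq0 : 0 ≤ q) (hq1 : q ≤ 1)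
    (hq'0 : 0 ≤ q') (hq'1 : q' ≤ 1) (hi : 0 ≤ i) (hij : i + 1 ≤ j)
    (hy : |-(i * q') + j * q| < 1) : G (-(i * q') + j * q) ≤ j * G q := by
  obtain ⟨hy1, hy2⟩ := abs_lt.mp hy
  set y := -(i * q') + j * q with hydef
  have hGq := hG0 q ⟨by linarith, hq1⟩
  rcases le_or_gt y q with h | h
  · rcases eq_or_lt_of_le hq1 with h1 | h1
    · exfalso
      rw [h1] at hydef
      nlinarith
    · have h3 := conc3 hG (x := y) (y := q) (z := 1) hy1.le h hq1 le_rfl
      have hG1 := hG0 1 ⟨by norm_num, le_rfl⟩
      have h4 : 1 - y ≤ j * (1 - q) := by nlinarith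
      have h5 : (1 - q) * G y ≤ (1 - q) * (j * G q) := by nlinarith [mul_nonneg (sub_nonneg.2 h) hG1]
      exact le_of_mul_le_mul_left h5 (by linarith)
  · have hqpos : 0 < q := by
      rcases eq_or_lt_of_le hq0 with h0 | h0
      · exfalso
        rw [← h0] at hydef h
        nlinarith [mul_nonneg hi hq'0]
      · exact h0
    have h3 := conc3 hG (x := 0) (y := q) (z := y) (by norm_num) hq0 h.le hy2.le
    have hG00 := hG0 0 ⟨by norm_num, by norm_num⟩
    have h4 : y ≤ j * q := by nlinarith [mul_nonneg hi hq'0]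
    have h5 : q * G y ≤ q * (j * G q) := by
      nlinarith [mul_nonneg (sub_nonneg.2 h.le) hG00, mul_le_mul_of_nonneg_right h4 hGq]
    exact le_of_mul_le_mul_left h5 hqpos

/-- `G (j z) ≤ j G z` for `1 ≤ j`. -/
theorem conc_jj {G : ℝ → ℝ} (hG : ConcaveOn ℝ (Set.Icc (-1 : ℝ) 1) G)
    (hG0 : ∀ y ∈ Set.Icc (-1 : ℝ) 1, 0 ≤ G y) {z j : ℝ} (hj : 1 ≤ j)
    (hy : |j * z| < 1) : G (j * z) ≤ j * G z := by
  obtain ⟨hy1, hy2⟩ := abs_lt.mp hy
  have hG00 := hG0 0 ⟨by norm_num, by norm_num⟩
  rcases le_or_gt 0 z with h | h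
  · rcases eq_or_lt_of_le h with h0 | h0
    · rw [← h0]; simp; nlinarith
    · have h3 := conc3 hG (x := 0) (y := z) (z := j * z) (by norm_num) h (by nlinarith) hy2.le
      have h5 : z * G (j * z) ≤ z * (j * G z) := by nlinarith [mul_nonneg (mul_nonneg (sub_nonneg.2 hj) h) hG00]
      exact le_of_mul_le_mul_left h5 h0
  · have h3 := conc3 hG (x := j * z) (y := z) (z := 0) hy1.le (by nlinarith) h.le (by norm_num)
    have h5 : (-z) * G (j * z) ≤ (-z) * (j * G z) := by
      nlinarith [mul_nonneg (mul_nonneg (sub_nonneg.2 hj) (neg_nonneg.2 h.le)) hG00]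
    exact le_of_mul_le_mul_left h5 (by linarith)

namespace Shape

theorem F_conc (S : Shape) : ConcaveOn ℝ (Set.Icc (-1 : ℝ) 1) S.F := by
  refine ⟨convex_Icc _ _, ?_⟩
  intro x hx y hy a b ha hb hab
  have h := S.conc.2 hx hy ha hb hab
  simp only [smul_eq_mul, F] at h ⊢
  have : a * S.a + b * S.a = S.a := by rw [← add_mul, hab, one_mul]
  linarith

theorem F_nonneg (S : Shape) : ∀ y ∈ Set.Icc (-1 : ℝ) 1, 0 ≤ S.F y := fun y hy =>
  add_nonneg (S.nonneg y hy) S.a_nonneg

/-- `r y ≥ (1 - |y|) r 0` -/
theorem r_lower (S : Shape) {y : ℝ} (hy : |y| ≤ 1) : (1 - |y|) * S.r 0 ≤ S.r y := by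
  obtain ⟨h1, h2⟩ := abs_le.mp hy
  rcases le_or_gt 0 y with h | h
  · rw [abs_of_nonneg h]
    have := conc3 S.conc (x := 0) (y := y) (z := 1) (by norm_num) h h2 le_rfl
    have h0 := S.nonneg 1 ⟨by norm_num, le_rfl⟩
    nlinarith
  · rw [abs_of_neg h]
    have := conc3 S.conc (x := -1) (y := y) (z := 0) le_rfl h1 h.le (by norm_num)
    have h0 := S.nonneg (-1) ⟨le_rfl, by norm_num⟩
    nlinarith

theorem r_pos (S : Shape) {y : ℝ} (hy : |y| < 1) : 0 < S.r y := by
  have := S.r_lower hy.le
  have h2 : 0 < (1 - |y|) * S.r 0 := mul_pos (by linarith) S.pos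
  linarith

theorem F_pos (S : Shape) {y : ℝ} (hy : |y| < 1) : 0 < S.F y := by
  have := S.r_pos hy
  have := S.a_nonneg
  unfold F; linarith

end Shape

/-! ## Out -/

theorem out_of_far {S : Shape} {x y : ℝ} (h : |y| < 1 → S.F y ≤ x) : Out S x y := by
  intro hy k hk ⟨_, h2⟩
  have h3 := h hy
  have ha := S.a_nonneg
  unfold Shape.F at h3
  rcases hk with rfl | rfl | rfl <;> linarith

theorem out_neg {S : Shape} {x y : ℝ} (h : Out S x y) : Out S (-x) (-y) := by
  intro hy k hk ⟨h1, h2⟩
  rw [abs_neg] at hy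
  rw [neg_neg] at h1
  refine h hy (-k) ?_ ⟨by linarith, by linarith⟩
  rcases hk with rfl | rfl | rfl
  · right; right; norm_num
  · right; left; norm_num
  · left; norm_num

theorem out_of_big {S : Shape} {x y : ℝ} (h : 1 ≤ |y|) : Out S x y := by
  intro hy
  linarith

/-- Reduction of the lattice statement to `j ≥ 0`. -/
theorem out_lattice_of {S : Shape} {p₁ p₂ q₁ q₂ : ℝ}
    (h : ∀ i j : ℤ, (i, j) ≠ (0, 0) → 0 ≤ j → Out S (i * p₁ + j * p₂) (i * q₁ + j * q₂)) :
    ∀ i j : ℤ, (i, j) ≠ (0, 0) → Out S (i * p₁ + j * p₂) (i * q₁ + j * q₂) := by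
  intro i j hij
  rcases le_or_gt 0 j with h0 | h0
  · exact h i j hij h0
  · have h1 := h (-i) (-j) (by simpa using hij) (by omega)
    have h2 := out_neg h1
    have e1 : -(((-i : ℤ) : ℝ) * p₁ + ((-j : ℤ) : ℝ) * p₂) = i * p₁ + j * p₂ := by push_cast; ring
    have e2 : -(((-i : ℤ) : ℝ) * q₁ + ((-j : ℤ) : ℝ) * q₂) = i * q₁ + j * q₂ := by push_cast; ring
    rwa [e1, e2] at h2

/-- job C, part 1 -/
theorem lattice_far (S : Shape) (q q' P₁ P₂ : ℝ) (hq0 : 0 ≤ q) (hq1 : q ≤ 1) (hq'0 : 0 ≤ q')
    (hq'1 : q' ≤ 1) (hs : 1 ≤ q + q') (h1 : S.F (-q') ≤ P₁) (h2 : S.F q ≤ P₂)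
    (h12 : S.F (q - q') ≤ P₁ + P₂) :
    0 < q * P₁ + q' * P₂ ∧
      ∀ i j : ℤ, (i, j) ≠ (0, 0) → Out S (i * P₁ + j * P₂) (-(i * q') + j * q) := by
  have hF0 := S.F_nonneg
  have hP1 : 0 ≤ P₁ := (hF0 (-q') ⟨by linarith, by linarith⟩).trans h1
  have hP2 : 0 ≤ P₂ := (hF0 q ⟨by linarith, by linarith⟩).trans h2
  constructor
  · rcases eq_or_lt_of_le hq0 with h0 | h0
    · have hq' : q' = 1 := by linarith
      have : 0 < S.F q := S.F_pos (by rw [← h0]; norm_num)
      rw [hq', ← h0]; linarith
    · rcases eq_or_lt_of_le hq'0 with h0' | h0'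
      · have hq : q = 1 := by linarith
        have : 0 < S.F (-q') := S.F_pos (by rw [← h0']; norm_num)
        rw [hq, ← h0']; linarith
      · have h3 : 0 < S.F (q - q') := S.F_pos (abs_lt.mpr ⟨by linarith, by linarith⟩)
        have h4 : 0 < P₁ + P₂ := by linarith
        rcases eq_or_lt_of_le hP1 with h5 | h5
        · have : 0 < P₂ := by linarith
          have := mul_pos h0' this
          have := mul_nonneg hq0 hP1
          linarith
        · have := mul_pos h0 h5
          have := mul_nonneg hq'0 hP2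
          linarith
  · have main : ∀ i j : ℤ, (i, j) ≠ (0, 0) → 0 ≤ j →
        Out S (i * P₁ + j * P₂) (i * (-q') + j * q) := by
      intro i j hij hj
      have e : (i : ℝ) * (-q') + j * q = -(i * q') + j * q := by ring
      rcases lt_or_ge i 0 with hi | hi
      · rcases eq_or_lt_of_le hj with hj0 | hj0
        · -- j = 0, i < 0
          subst hj0
          have : Out S (-((-i : ℝ) * P₁)) (-(-(((-i : ℤ) : ℝ) * q'))) := by
            apply out_neg
            apply out_of_far
            intro hy
            have hi1 : (1 : ℝ) ≤ ((-i : ℤ) : ℝ) := by exact_mod_cast (by omega : (1 : ℤ) ≤ -i)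
            have h5 := conc_jj S.F_conc hF0 (z := -q') hi1 (by rwa [mul_neg])
            rw [mul_neg] at h5
            refine h5.trans ?_
            push_cast
            push_cast at hi1
            exact mul_le_mul_of_nonneg_left h1 (by linarith)
          have e1 : -((-i : ℝ) * P₁) = i * P₁ + ((0 : ℤ) : ℝ) * P₂ := by push_cast; ring
          have e2 : (-(-(((-i : ℤ) : ℝ) * q'))) = i * (-q') + ((0 : ℤ) : ℝ) * q := by push_cast; ring
          rwa [e1, e2] at this
        · -- i < 0 < j
          apply out_of_big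
          have hi1 : (i : ℝ) ≤ -1 := by exact_mod_cast (by omega : i ≤ -1)
          have hj1 : (1 : ℝ) ≤ j := by exact_mod_cast (by omega : (1 : ℤ) ≤ j)
          rw [le_abs]; left
          nlinarith
      · have hiR : (0 : ℝ) ≤ i := by exact_mod_cast hi
        have hjR : (0 : ℝ) ≤ j := by exact_mod_cast hj
        apply out_of_far
        rw [e]
        intro hy
        rcases lt_trichotomy i j with h | h | h
        · have hij1 : (i : ℝ) + 1 ≤ j := by exact_mod_cast (by omega : i + 1 ≤ j)
          have h5 := conc_ij S.F_conc hF0 hq0 hq1 hq'0 hq'1 hiR hij1 hy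
          have := mul_le_mul_of_nonneg_left h2 hjR
          have := mul_nonneg hiR hP1
          linarith
        · subst h
          have hi1 : (1 : ℝ) ≤ i := by
            rcases eq_or_lt_of_le hi with h0 | h0
            · exact absurd (by rw [← h0]) hij
            · exact_mod_cast (by omega : (1 : ℤ) ≤ i)
          have e3 : -((i : ℝ) * q') + i * q = i * (q - q') := by ring
          rw [e3] at hy ⊢
          have h5 := conc_jj S.F_conc hF0 hi1 hy
          have := mul_le_mul_of_nonneg_left h12 hiR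
          linarith
        · have hij1 : (j : ℝ) + 1 ≤ i := by exact_mod_cast (by omega : j + 1 ≤ i)
          have e4 : |-((j : ℝ) * q) + i * q'| < 1 := by
            rw [← abs_neg]; convert hy using 2; ring
          have h5 := conc_ij (conc_mirror S.F_conc) (fun y hy => hF0 (-y)
            ⟨by linarith [hy.2], by linarith [hy.1]⟩) hq'0 hq'1 hq0 hq1 hjR hij1 e4
          have e5 : -(-((j : ℝ) * q) + i * q') = -(i * q') + j * q := by ring
          simp only [e5] at h5
          have := mul_le_mul_of_nonneg_left h1 hiR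
          have := mul_nonneg hjR hP2
          linarith
    have := out_lattice_of main
    intro i j hij
    have h := this i j hij
    have e : (i : ℝ) * (-q') + j * q = -(i * q') + j * q := by ring
    rwa [e] at h

/-- job C, part 2 -/
theorem lattice_near (S : Shape) (q q' p P₂ : ℝ) (hq0 : 0 ≤ q) (hq1 : q < 1) (hq'0 : 0 ≤ q')
    (hq'1 : q' < 1) (hp1 : S.r (-q') ≤ p) (hp2 : p ≤ S.a - S.r q') (h2 : S.F q ≤ P₂)
    (h12 : S.F (q - q') ≤ p + P₂) :
    0 < q * p + q' * P₂ ∧
      ∀ i j : ℤ, (i, j) ≠ (0, 0) → Out S (i * p + j * P₂) (-(i * q') + j * q) := by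
  have hF0 := S.F_nonneg
  have hr0 := S.nonneg
  have hrm : 0 < S.r (-q') := S.r_pos (by rw [abs_neg, abs_of_nonneg hq'0]; exact hq'1)
  have hrp : 0 < S.r q' := S.r_pos (by rw [abs_of_nonneg hq'0]; exact hq'1)
  have hp0 : 0 < p := by linarith
  have hFq : 0 < S.F q := S.F_pos (by rw [abs_of_nonneg hq0]; exact hq1)
  have hP2 : 0 < P₂ := by linarith
  have haP2 : S.a ≤ P₂ := by
    have := hr0 q ⟨by linarith, hq1.le⟩
    unfold Shape.F at h2; linarith
  have hhalf : 1 / 2 ≤ q' := by
    have a1 := S.r_lower (y := q') (by rw [abs_of_nonneg hq'0]; exact hq'1.le)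
    have a2 := S.r_lower (y := -q') (by rw [abs_neg, abs_of_nonneg hq'0]; exact hq'1.le)
    rw [abs_neg] at a2
    rw [abs_of_nonneg hq'0] at a1 a2
    have h0 := S.pos
    have h4 := S.a_le
    by_contra hcon
    push Not at hcon
    nlinarith
  constructor
  · have := mul_pos (by linarith : (0 : ℝ) < q') hP2
    have := mul_nonneg hq0 hp0.le
    linarith
  · have main : ∀ i j : ℤ, (i, j) ≠ (0, 0) → 0 ≤ j →
        Out S (i * p + j * P₂) (i * (-q') + j * q) := by
      intro i j hij hj
      have e : (i : ℝ) * (-q') + j * q = -(i * q') + j * q := by ring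
      rcases eq_or_lt_of_le hj with hj0 | hj0
      · -- j = 0
        subst hj0
        rcases lt_trichotomy i 0 with hi | hi | hi
        · rcases eq_or_lt_of_le (show i ≤ -1 by omega) with h | h
          · subst h
            have : Out S (-p) (-(-q')) := by
              apply out_neg
              intro _ k hk ⟨k1, k2⟩
              rw [neg_neg] at k1
              have ha := S.a_nonneg
              rcases hk with rfl | rfl | rfl <;> linarith
            convert this using 1 <;> push_cast <;> ring
          · apply out_of_big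
            have hi1 : (i : ℝ) ≤ -2 := by exact_mod_cast (by omega : i ≤ -2)
            rw [le_abs]; left
            push_cast
            nlinarith
        · subst hi; exact absurd rfl hij
        · rcases eq_or_lt_of_le (show 1 ≤ i by omega) with h | h
          · subst h
            have : Out S p (-q') := by
              intro _ k hk ⟨k1, k2⟩
              rw [neg_neg] at k1
              have ha := S.a_nonneg
              rcases hk with rfl | rfl | rfl <;> linarith
            convert this using 1 <;> push_cast <;> ring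
          · apply out_of_big
            have hi1 : (2 : ℝ) ≤ i := by exact_mod_cast (by omega : (2 : ℤ) ≤ i)
            rw [le_abs]; right
            push_cast
            nlinarith
      · have hj1 : (1 : ℝ) ≤ j := by exact_mod_cast (by omega : (1 : ℤ) ≤ j)
        have hjR : (0 : ℝ) ≤ j := by linarith
        rcases lt_or_ge i 0 with hi | hi
        · rcases eq_or_lt_of_le (show i ≤ -1 by omega) with h | h
          · -- i = -1
            subst h
            apply out_of_far
            intro hy
            have ey : (((-1 : ℤ) : ℝ) * (-q') + j * q) = j * q + q' := by push_cast; ring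
            rw [ey] at hy ⊢
            obtain ⟨_, hy2⟩ := abs_lt.mp hy
            have hjq : 0 ≤ j * q := mul_nonneg hjR hq0
            have b1 := conc_sub S.conc (x := j * q) (y := q') hjq hq'0 hy2.le
            have b2 := conc_jj S.F_conc hF0 (z := q) hj1 (by
              rw [abs_of_nonneg hjq]; linarith)
            have b3 := S.a_le
            have b4 : S.F (j * q) ≤ j * P₂ := b2.trans (mul_le_mul_of_nonneg_left h2 hjR)
            unfold Shape.F at b4 ⊢
            push_cast
            linarith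
          · apply out_of_big
            have hi1 : (i : ℝ) ≤ -2 := by exact_mod_cast (by omega : i ≤ -2)
            rw [le_abs]; left
            nlinarith [mul_nonneg hjR hq0]
        · have hiR : (0 : ℝ) ≤ i := by exact_mod_cast hi
          apply out_of_far
          rw [e]
          intro hy
          rcases lt_trichotomy i j with h | h | h
          · have hij1 : (i : ℝ) + 1 ≤ j := by exact_mod_cast (by omega : i + 1 ≤ j)
            have h5 := conc_ij S.F_conc hF0 hq0 hq1.le hq'0 hq'1.le hiR hij1 hy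
            have := mul_le_mul_of_nonneg_left h2 hjR
            have := mul_nonneg hiR hp0.le
            linarith
          · subst h
            have e3 : -((i : ℝ) * q') + i * q = i * (q - q') := by ring
            rw [e3] at hy ⊢
            have h5 := conc_jj S.F_conc hF0 hj1 hy
            have := mul_le_mul_of_nonneg_left h12 hiR
            linarith
          · have hij1 : (j : ℝ) + 1 ≤ i := by exact_mod_cast (by omega : j + 1 ≤ i)
            have e4 : |-((j : ℝ) * q) + i * q'| < 1 := by
              rw [← abs_neg]; convert hy using 2; ring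
            have h5 := conc_ij (conc_mirror S.conc) (fun y hy => hr0 (-y)
              ⟨by linarith [hy.2], by linarith [hy.1]⟩) hq'0 hq'1.le hq0 hq1.le hjR hij1 e4
            have e5 : -(-((j : ℝ) * q) + i * q') = -(i * q') + j * q := by ring
            simp only [e5] at h5
            have h6 := mul_le_mul_of_nonneg_left hp1 hiR
            have h7 : P₂ ≤ j * P₂ := by nlinarith
            unfold Shape.F
            linarith
    have := out_lattice_of main
    intro i j hij
    have h := this i j hij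
    have e : (i : ℝ) * (-q') + j * q = -(i * q') + j * q := by ring
    rwa [e] at h

end Pool.Agent.H27.Rog
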